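import Mathlib

set_option autoImplicit false

/-! # A Tauberian theorem for Stieltjes transforms: the functionals -/

namespace Pool.Agent.R613.GC

open MeasureTheory Filter Topology Set

variable {ι : Type} (a lam : ι → ℝ)

structure Adm (a lam : ι → ℝ) : Prop where
  a0 : ∀ i, 0 ≤ a i
  l0 : ∀ i, 0 < lam i
  sm : Summable fun i => a i / lam i

/-- the weights -/
noncomputable def wt (z : ℝ) (i : ι) : ℝ := Real.sqrt z * (a i / (z + lam i))

/-- the functional -/
noncomputable def Ph (z : ℝ) (f : ℝ → ℝ) : ℝ := ∑' i, wt a lam z i * f (z / (z + lam i))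

/-- the limit functional -/
noncomputable def Ps (f : ℝ → ℝ) : ℝ := ∫ u in Ioi (0:ℝ), f (1 / (1 + u ^ 2)) * (1 / (1 + u ^ 2))

/-- the Stieltjes transform -/
noncomputable def FF (z : ℝ) : ℝ := ∑' i, a i / (z + lam i)

variable {a lam}

lemma wt_nonneg (h : Adm a lam) {z : ℝ} (hz : 0 < z) (i : ι) : 0 ≤ wt a lam z i := by
  have := h.a0 i
  have := h.l0 i
  unfold wt
  positivity

lemma wt_sm (h : Adm a lam) {z : ℝ} (hz : 0 < z) : Summable (wt a lam z) := by
  unfold wt
  refine Summable.mul_left _ (Summable.of_nonneg_of_le (fun i => ?_) (fun i => ?_) h.sm)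
  · have := h.a0 i
    have := h.l0 i
    positivity
  · have := h.a0 i
    have := h.l0 i
    gcongr
    linarith

lemma y_mem (h : Adm a lam) {z : ℝ} (hz : 0 < z) (i : ι) : z / (z + lam i) ∈ Icc (0:ℝ) 1 := by
  have := h.l0 i
  refine ⟨by positivity, ?_⟩
  rw [div_le_one (by positivity)]
  linarith

lemma wf_sm (h : Adm a lam) {z : ℝ} (hz : 0 < z) {f : ℝ → ℝ} {B : ℝ} (hB : ∀ y ∈ Icc (0:ℝ) 1, |f y| ≤ B) :
    Summable fun i => wt a lam z i * f (z / (z + lam i)) := by
  refine Summable.of_norm_bounded ((wt_sm h hz).mul_right B) fun i => ?_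
  rw [norm_mul, Real.norm_of_nonneg (wt_nonneg h hz i), Real.norm_eq_abs]
  exact mul_le_mul_of_nonneg_left (hB _ (y_mem h hz i)) (wt_nonneg h hz i)

lemma Ph_le (h : Adm a lam) {z : ℝ} (hz : 0 < z) {f : ℝ → ℝ} {B : ℝ} (hB : ∀ y ∈ Icc (0:ℝ) 1, |f y| ≤ B) :
    |Ph a lam z f| ≤ B * Ph a lam z (fun _ => 1) := by
  unfold Ph
  simp only [mul_one]
  rw [← tsum_mul_left]
  have h1 := wf_sm h hz hB
  calc |∑' i, wt a lam z i * f (z / (z + lam i))| ≤ ∑' i, |wt a lam z i * f (z / (z + lam i))| := by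
        have := norm_tsum_le_tsum_norm h1.norm
        simpa [Real.norm_eq_abs] using this
    _ ≤ ∑' i, B * wt a lam z i := by
        refine Summable.tsum_le_tsum (fun i => ?_) h1.abs ((wt_sm h hz).mul_left B)
        rw [abs_mul, abs_of_nonneg (wt_nonneg h hz i), mul_comm]
        exact mul_le_mul_of_nonneg_right (hB _ (y_mem h hz i)) (wt_nonneg h hz i)

/-- continuity on `[0,1]` -/
def CB (f : ℝ → ℝ) : Prop := ContinuousOn f (Icc 0 1)

lemma CB.bd {f : ℝ → ℝ} (hf : CB f) : ∃ B : ℝ, ∀ y ∈ Icc (0:ℝ) 1, |f y| ≤ B := by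
  obtain ⟨B, hB⟩ := isCompact_Icc.exists_bound_of_continuousOn hf
  exact ⟨B, fun y hy => hB y hy⟩

lemma inv_mem (u : ℝ) : 1 / (1 + u ^ 2) ∈ Icc (0:ℝ) 1 := by
  refine ⟨by positivity, ?_⟩
  rw [div_le_one (by positivity)]
  nlinarith [sq_nonneg u]

lemma CB.cont {f : ℝ → ℝ} (hf : CB f) : Continuous fun u : ℝ => f (1 / (1 + u ^ 2)) := by
  refine ContinuousOn.comp_continuous hf ?_ inv_mem
  refine Continuous.div continuous_const (by fun_prop) fun u => ?_
  positivity

lemma int_inv : IntegrableOn (fun u : ℝ => 1 / (1 + u ^ 2)) (Ioi 0) := by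
  have := integrable_inv_one_add_sq.integrableOn (s := Ioi (0:ℝ))
  simpa [one_div] using this

lemma int_one : ∫ u in Ioi (0:ℝ), 1 / (1 + u ^ 2) = Real.pi / 2 := by
  have := @integral_Ioi_inv_one_add_sq 0
  simp [one_div]

lemma CB.int {f : ℝ → ℝ} (hf : CB f) : IntegrableOn (fun u : ℝ => f (1 / (1 + u ^ 2)) * (1 / (1 + u ^ 2))) (Ioi 0) := by
  obtain ⟨B, hB⟩ := hf.bd
  refine Integrable.bdd_mul (c := B) int_inv ?_ ?_
  · exact hf.cont.aestronglyMeasurable
  · exact Eventually.of_forall fun u => hB _ (inv_mem u)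

lemma Ps_one : Ps (fun _ => 1) = Real.pi / 2 := by
  unfold Ps
  simp only [one_mul]
  exact int_one

lemma Ps_le {f : ℝ → ℝ} (hf : CB f) {B : ℝ} (hB : ∀ y ∈ Icc (0:ℝ) 1, |f y| ≤ B) : |Ps f| ≤ B * (Real.pi / 2) := by
  unfold Ps
  have e : B * (Real.pi / 2) = ∫ u in Ioi (0:ℝ), B * (1 / (1 + u ^ 2)) := by
    rw [integral_const_mul, int_one]
  rw [e, ← Real.norm_eq_abs]
  have h0 := norm_integral_le_integral_norm (μ := volume.restrict (Ioi (0:ℝ)))
    (fun u : ℝ => f (1 / (1 + u ^ 2)) * (1 / (1 + u ^ 2)))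
  refine h0.trans ?_
  refine integral_mono_of_nonneg (Eventually.of_forall fun u => norm_nonneg _) (int_inv.const_mul B)
    (Eventually.of_forall fun u => ?_)
  simp only
  rw [norm_mul, Real.norm_eq_abs, Real.norm_of_nonneg (by positivity : (0:ℝ) ≤ 1 / (1 + u ^ 2))]
  exact mul_le_mul_of_nonneg_right (hB _ (inv_mem u)) (by positivity)

/-- the difference -/
noncomputable def DD (a lam : ι → ℝ) (κ z : ℝ) (f : ℝ → ℝ) : ℝ := Ph a lam z f - κ * Ps f

lemma DD_lin (h : Adm a lam) {z : ℝ} (hz : 0 < z) (κ : ℝ) {f g : ℝ → ℝ} (hf : CB f) (hg : CB g) (c d : ℝ) :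
    DD a lam κ z (fun y => c * f y + d * g y) = c * DD a lam κ z f + d * DD a lam κ z g := by
  obtain ⟨B, hB⟩ := hf.bd
  obtain ⟨C, hC⟩ := hg.bd
  have h1 : Ph a lam z (fun y => c * f y + d * g y) = c * Ph a lam z f + d * Ph a lam z g := by
    unfold Ph
    rw [← tsum_mul_left, ← tsum_mul_left, ← ((wf_sm h hz hB).mul_left c).tsum_add ((wf_sm h hz hC).mul_left d)]
    refine tsum_congr fun i => by ring
  have h2 : Ps (fun y => c * f y + d * g y) = c * Ps f + d * Ps g := by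
    unfold Ps
    rw [← integral_const_mul, ← integral_const_mul, ← integral_add (hf.int.const_mul c) (hg.int.const_mul d)]
    congr 1
    funext u
    ring
  unfold DD
  rw [h1, h2]
  ring

lemma DD_le (h : Adm a lam) {z : ℝ} (hz : 0 < z) {κ : ℝ} (hκ : 0 ≤ κ) {f : ℝ → ℝ} (hf : CB f) {B : ℝ}
    (hB : ∀ y ∈ Icc (0:ℝ) 1, |f y| ≤ B) :
    |DD a lam κ z f| ≤ B * (Ph a lam z (fun _ => 1) + κ * (Real.pi / 2)) := by
  unfold DD
  have h1 := Ph_le h hz hB
  have h2 := Ps_le hf hB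
  refine (abs_sub _ _).trans ?_
  rw [abs_mul, abs_of_nonneg hκ]
  nlinarith

lemma DD_sum (h : Adm a lam) {z : ℝ} (hz : 0 < z) (κ : ℝ) (c : ℕ → ℝ) (n : ℕ) :
    DD a lam κ z (fun y => ∑ k ∈ Finset.range n, c k * y ^ k) =
      ∑ k ∈ Finset.range n, c k * DD a lam κ z (fun y => y ^ k) := by
  induction n with
  | zero =>
    simp [DD, Ph, Ps]
  | succ n ih =>
    have h1 := DD_lin h hz κ (f := fun y => ∑ k ∈ Finset.range n, c k * y ^ k) (g := fun y => y ^ n)
      (Continuous.continuousOn (by fun_prop)) (Continuous.continuousOn (by fun_prop)) 1 (c n)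
    simp only [one_mul] at h1
    rw [Finset.sum_range_succ, ← ih, ← h1]
    congr 1
    funext y
    rw [Finset.sum_range_succ]

/-- the integral for the test functions `1 / (1 - t y)` -/
lemma Ps_g {r : ℝ} (hr : 0 < r) : Ps (fun y => 1 / (1 - (1 - r) * y)) = Real.pi / 2 / Real.sqrt r := by
  unfold Ps
  have h1 : ∀ u : ℝ, 1 / (1 - (1 - r) * (1 / (1 + u ^ 2))) * (1 / (1 + u ^ 2)) =
      (1 / r) * (1 / (1 + ((Real.sqrt r)⁻¹ * u) ^ 2)) := by
    intro u
    have h2 : (0:ℝ) < 1 + u ^ 2 := by positivity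
    have h3 : (0:ℝ) < r + u ^ 2 := by positivity
    have h4 : 1 - (1 - r) * (1 / (1 + u ^ 2)) = (r + u ^ 2) / (1 + u ^ 2) := by
      field_simp
      ring
    rw [h4, mul_pow, inv_pow, Real.sq_sqrt hr.le]
    field_simp
  simp_rw [h1]
  rw [integral_const_mul, integral_comp_mul_left_Ioi (fun u => 1 / (1 + u ^ 2)) 0 (by positivity), mul_zero,
    int_one, smul_eq_mul, inv_inv]
  have h5 : Real.sqrt r * Real.sqrt r = r := Real.mul_self_sqrt hr.le
  have h6 : 0 < Real.sqrt r := Real.sqrt_pos.2 hr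
  field_simp
  nlinarith

lemma Ph_g (h : Adm a lam) {z r : ℝ} (hz : 0 < z) (hr : 0 < r) :
    Ph a lam z (fun y => 1 / (1 - (1 - r) * y)) = (Real.sqrt (r * z) * FF a lam (r * z)) / Real.sqrt r := by
  unfold Ph FF wt
  rw [← tsum_mul_left, ← tsum_div_const]
  refine tsum_congr fun i => ?_
  have h1 := h.l0 i
  have h2 : 1 - (1 - r) * (z / (z + lam i)) = (r * z + lam i) / (z + lam i) := by
    field_simp
    ring
  have h6 : 0 < Real.sqrt r := Real.sqrt_pos.2 hr
  have h7 : 0 < r * z + lam i := by positivity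
  have h8 : 0 < z + lam i := by positivity
  show Real.sqrt z * (a i / (z + lam i)) * (1 / (1 - (1 - r) * (z / (z + lam i)))) = _
  rw [h2, Real.sqrt_mul hr.le]
  field_simp

lemma CB_g {t : ℝ} (ht1 : t < 1) : CB (fun y => 1 / (1 - t * y)) := by
  unfold CB
  refine ContinuousOn.div continuousOn_const (Continuous.continuousOn (by fun_prop)) fun y hy => ?_
  have : t * y < 1 := by
    rcases le_or_gt t 0 with h | h
    · nlinarith [hy.1, hy.2]
    · nlinarith [hy.1, hy.2]
  linarith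

/-- the hypothesis gives convergence for the test functions -/
lemma DD_g (h : Adm a lam) {κ : ℝ}
    (hF : Tendsto (fun z => Real.sqrt z * FF a lam z) atTop (𝓝 (κ * (Real.pi / 2)))) {t : ℝ} (ht : t < 1) :
    Tendsto (fun z => DD a lam κ z (fun y => 1 / (1 - t * y))) atTop (𝓝 0) := by
  obtain ⟨r, hr⟩ : ∃ r : ℝ, r = 1 - t := ⟨_, rfl⟩
  have hr0 : 0 < r := by linarith
  have htr : t = 1 - r := by linarith
  rw [htr]
  have h1 : Tendsto (fun z : ℝ => r * z) atTop atTop := tendsto_id.const_mul_atTop hr0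
  have h2 := ((hF.comp h1).div_const (Real.sqrt r)).sub_const (κ * (Real.pi / 2 / Real.sqrt r))
  have h3 : κ * (Real.pi / 2) / Real.sqrt r - κ * (Real.pi / 2 / Real.sqrt r) = 0 := by ring
  rw [h3] at h2
  refine h2.congr' ?_
  filter_upwards [eventually_gt_atTop (0:ℝ)] with z hz
  unfold DD
  rw [Ph_g h hz hr0, Ps_g hr0]
  rfl

lemma mass_bd (h : Adm a lam) {κ : ℝ} (hκ : 0 ≤ κ)
    (hF : Tendsto (fun z => Real.sqrt z * FF a lam z) atTop (𝓝 (κ * (Real.pi / 2)))) :
    ∃ M : ℝ, 0 < M ∧ ∀ᶠ z : ℝ in atTop, 0 < z ∧ ∀ (f : ℝ → ℝ), CB f → ∀ B : ℝ, 0 ≤ B →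
      (∀ y ∈ Icc (0:ℝ) 1, |f y| ≤ B) → |DD a lam κ z f| ≤ B * M := by
  refine ⟨2 * (κ * (Real.pi / 2)) + 1, by positivity, ?_⟩
  filter_upwards [hF.eventually (gt_mem_nhds (lt_add_one _)), eventually_gt_atTop (0:ℝ)] with z h1 hz
  refine ⟨hz, fun f hf B hB0 hB => (DD_le h hz hκ hf hB).trans ?_⟩
  have h2 : Ph a lam z (fun _ => 1) = Real.sqrt z * FF a lam z := by
    unfold Ph FF wt
    rw [← tsum_mul_left]
    simp
  rw [h2]
  exact mul_le_mul_of_nonneg_left (by linarith) hB0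

/-- convergence for the powers -/
lemma DD_pow (h : Adm a lam) {κ : ℝ} (hκ : 0 ≤ κ)
    (hF : Tendsto (fun z => Real.sqrt z * FF a lam z) atTop (𝓝 (κ * (Real.pi / 2)))) (n : ℕ) :
    Tendsto (fun z => DD a lam κ z (fun y => y ^ n)) atTop (𝓝 0) := by
  obtain ⟨M, hM, hMev⟩ := mass_bd h hκ hF
  induction n using Nat.strong_induction_on with
  | _ n ih =>
    rw [Metric.tendsto_nhds]
    intro ε hε
    obtain ⟨t, ht⟩ : ∃ t : ℝ, t = min (1 / 2) (ε / (4 * M)) := ⟨_, rfl⟩
    have ht0 : 0 < t := by rw [ht]; positivity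
    have ht2 : t ≤ 1 / 2 := by rw [ht]; exact min_le_left _ _
    have htM : 2 * M * t ≤ ε / 2 := by
      have : t ≤ ε / (4 * M) := by rw [ht]; exact min_le_right _ _
      rw [le_div_iff₀ (by positivity)] at this
      linarith
    have h1 := DD_g h hF (t := t) (by linarith)
    have h2 : Tendsto (fun z => ∑ k ∈ Finset.range n, t ^ k * DD a lam κ z (fun y => y ^ k)) atTop
        (𝓝 (∑ k ∈ Finset.range n, t ^ k * 0)) :=
      tendsto_finsetSum _ fun k hk => (ih k (Finset.mem_range.1 hk)).const_mul _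
    have h3 := h1.sub h2
    simp only [mul_zero, Finset.sum_const_zero, sub_zero] at h3
    have h4 := Metric.tendsto_nhds.1 h3 (t ^ n * (ε / 2)) (by positivity)
    filter_upwards [h4, hMev] with z h5 h6
    obtain ⟨hz, h6⟩ := h6
    rw [Real.dist_eq, sub_zero] at h5 ⊢
    -- the identity
    have hR : CB (fun y => y ^ (n + 1) * (1 / (1 - t * y))) :=
      (Continuous.continuousOn (by fun_prop)).mul (CB_g (by linarith))
    have e1 : DD a lam κ z (fun y => 1 / (1 - t * y)) =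
        ∑ k ∈ Finset.range (n + 1), t ^ k * DD a lam κ z (fun y => y ^ k) +
        t ^ (n + 1) * DD a lam κ z (fun y => y ^ (n + 1) * (1 / (1 - t * y))) := by
      rw [← DD_sum h hz]
      have h7 := DD_lin h hz κ (f := fun y => ∑ k ∈ Finset.range (n + 1), t ^ k * y ^ k)
        (g := fun y => y ^ (n + 1) * (1 / (1 - t * y))) (Continuous.continuousOn (by fun_prop)) hR 1 (t ^ (n + 1))
      rw [one_mul] at h7
      rw [← h7]
      -- the functions agree on `[0,1]`
      have h8 : ∀ y ∈ Icc (0:ℝ) 1, 1 / (1 - t * y) = 1 * (∑ k ∈ Finset.range (n + 1), t ^ k * y ^ k) +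
          t ^ (n + 1) * (y ^ (n + 1) * (1 / (1 - t * y))) := by
        intro y hy
        have h9 : 0 < 1 - t * y := by nlinarith [hy.1, hy.2]
        have h10 : (∑ k ∈ Finset.range (n + 1), (t * y) ^ k) * (1 - t * y) = 1 - (t * y) ^ (n + 1) := by
          have := geom_sum_mul_neg (t * y) (n + 1)
          exact this
        have h11 : ∑ k ∈ Finset.range (n + 1), t ^ k * y ^ k = ∑ k ∈ Finset.range (n + 1), (t * y) ^ k :=
          Finset.sum_congr rfl fun k _ => (mul_pow _ _ _).symm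
        rw [h11]
        field_simp
        rw [← mul_pow]
        linarith [h10]
      unfold DD Ph Ps
      congr 1
      · refine tsum_congr fun i => ?_
        show wt a lam z i * (1 / (1 - t * (z / (z + lam i)))) = _
        rw [h8 _ (y_mem h hz i)]
      · congr 1
        congr 1
        funext u
        show 1 / (1 - t * (1 / (1 + u ^ 2))) * (1 / (1 + u ^ 2)) = _
        rw [h8 _ (inv_mem u)]
    rw [Finset.sum_range_succ] at e1
    have h7 : |DD a lam κ z (fun y => y ^ (n + 1) * (1 / (1 - t * y)))| ≤ 2 * M := by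
      apply h6 _ hR 2 (by norm_num)
      intro y hy
      have h9 : 1 / 2 ≤ 1 - t * y := by nlinarith [hy.1, hy.2]
      rw [abs_of_nonneg (mul_nonneg (pow_nonneg hy.1 _) (by positivity))]
      calc y ^ (n + 1) * (1 / (1 - t * y)) ≤ 1 * (1 / (1 / 2)) := by
            gcongr
            exact pow_le_one₀ hy.1 hy.2
        _ = 2 := by norm_num
    have h8 : t ^ n * |DD a lam κ z (fun y => y ^ n)| < t ^ n * ε := by
      have e2 : t ^ n * DD a lam κ z (fun y => y ^ n) =
          (DD a lam κ z (fun y => 1 / (1 - t * y)) -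
            ∑ k ∈ Finset.range n, t ^ k * DD a lam κ z (fun y => y ^ k)) -
          t ^ (n + 1) * DD a lam κ z (fun y => y ^ (n + 1) * (1 / (1 - t * y))) := by
        rw [e1]
        ring
      have e3 : t ^ n * |DD a lam κ z (fun y => y ^ n)| = |t ^ n * DD a lam κ z (fun y => y ^ n)| := by
        rw [abs_mul, abs_of_pos (by positivity : 0 < t ^ n)]
      rw [e3, e2]
      refine (abs_sub _ _).trans_lt ?_
      rw [abs_mul, abs_of_pos (by positivity : 0 < t ^ (n + 1))]
      have h9 : t ^ (n + 1) * |DD a lam κ z (fun y => y ^ (n + 1) * (1 / (1 - t * y)))| ≤ t ^ n * (ε / 2) := by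
        calc t ^ (n + 1) * |DD a lam κ z (fun y => y ^ (n + 1) * (1 / (1 - t * y)))| ≤ t ^ (n + 1) * (2 * M) := by
              gcongr
          _ = t ^ n * (2 * M * t) := by ring
          _ ≤ _ := by gcongr
      have h10 : t ^ n * ε = t ^ n * (ε / 2) + t ^ n * (ε / 2) := by ring
      rw [h10]
      exact add_lt_add_of_lt_of_le h5 h9
    exact lt_of_mul_lt_mul_left h8 (by positivity)

/-- convergence for all continuous functions -/
theorem DD_cont (h : Adm a lam) {κ : ℝ} (hκ : 0 ≤ κ)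
    (hF : Tendsto (fun z => Real.sqrt z * FF a lam z) atTop (𝓝 (κ * (Real.pi / 2)))) {f : ℝ → ℝ} (hf : CB f) :
    Tendsto (fun z => DD a lam κ z f) atTop (𝓝 0) := by
  obtain ⟨M, hM, hMev⟩ := mass_bd h hκ hF
  rw [Metric.tendsto_nhds]
  intro ε hε
  obtain ⟨p, hp⟩ := exists_polynomial_near_of_continuousOn 0 1 f hf (ε / (2 * M)) (by positivity)
  obtain ⟨n, hn⟩ : ∃ n : ℕ, n = p.natDegree + 1 := ⟨_, rfl⟩
  have hpe : ∀ y : ℝ, p.eval y = ∑ k ∈ Finset.range n, p.coeff k * y ^ k := by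
    intro y
    rw [hn, Polynomial.eval_eq_sum_range]
  have h2 : Tendsto (fun z => ∑ k ∈ Finset.range n, p.coeff k * DD a lam κ z (fun y => y ^ k)) atTop
      (𝓝 (∑ k ∈ Finset.range n, p.coeff k * 0)) :=
    tendsto_finsetSum _ fun k _ => (DD_pow h hκ hF k).const_mul _
  simp only [mul_zero, Finset.sum_const_zero] at h2
  have h4 := Metric.tendsto_nhds.1 h2 (ε / 2) (by positivity)
  filter_upwards [h4, hMev] with z h5 h6
  obtain ⟨hz, h6⟩ := h6
  rw [Real.dist_eq, sub_zero] at h5 ⊢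
  have hpc : CB (fun y => ∑ k ∈ Finset.range n, p.coeff k * y ^ k) := Continuous.continuousOn (by fun_prop)
  have h7 := DD_lin h hz κ hf hpc 1 (-1)
  have hd : CB (fun y => 1 * f y + (-1) * ∑ k ∈ Finset.range n, p.coeff k * y ^ k) :=
    (continuousOn_const.mul hf).add (continuousOn_const.mul hpc)
  have h8 : |DD a lam κ z (fun y => 1 * f y + (-1) * ∑ k ∈ Finset.range n, p.coeff k * y ^ k)| ≤
      ε / (2 * M) * M := by
    apply h6 _ hd _ (by positivity)
    intro y hy
    have := (hp y hy).le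
    rw [hpe, abs_sub_comm] at this
    have e : 1 * f y + (-1) * ∑ k ∈ Finset.range n, p.coeff k * y ^ k =
        f y - ∑ k ∈ Finset.range n, p.coeff k * y ^ k := by ring
    rw [e]
    exact this
  have h9 : ε / (2 * M) * M = ε / 2 := by field_simp
  rw [h9, h7, DD_sum h hz] at h8
  have h10 := abs_le.1 h8
  have h11 := abs_lt.1 h5
  rw [abs_lt]
  constructor <;> linarith [h10.1, h10.2, h11.1, h11.2]

end Pool.Agent.R613.GC
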