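import Pool.Agent.R613.GC.A1

set_option autoImplicit false

/-! # A Tauberian theorem for Stieltjes transforms: discontinuous functionals -/

namespace Pool.Agent.R613.GC

open MeasureTheory Filter Topology Set

variable {ι : Type} {a lam : ι → ℝ}

theorem sandwich (h : Adm a lam) {κ : ℝ} (hκ : 0 ≤ κ)
    (hF : Tendsto (fun z => Real.sqrt z * FF a lam z) atTop (𝓝 (κ * (Real.pi / 2)))) {f : ℝ → ℝ} {c : ℝ}
    (hf : ∀ ε : ℝ, 0 < ε → ∃ f1 f2 : ℝ → ℝ, CB f1 ∧ CB f2 ∧ (∀ y ∈ Icc (0:ℝ) 1, f1 y ≤ f y ∧ f y ≤ f2 y) ∧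
      c - ε ≤ Ps f1 ∧ Ps f2 ≤ c + ε) :
    Tendsto (fun z => Ph a lam z f) atTop (𝓝 (κ * c)) := by
  rw [Metric.tendsto_nhds]
  intro ε hε
  obtain ⟨f1, f2, h1, h2, h3, h4, h5⟩ := hf (ε / (2 * (κ + 1))) (by positivity)
  have d1 := Metric.tendsto_nhds.1 (DD_cont h hκ hF h1) (ε / 2) (by positivity)
  have d2 := Metric.tendsto_nhds.1 (DD_cont h hκ hF h2) (ε / 2) (by positivity)
  filter_upwards [d1, d2, eventually_gt_atTop (0:ℝ)] with z e1 e2 hz
  rw [Real.dist_eq, sub_zero] at e1 e2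
  rw [Real.dist_eq]
  obtain ⟨B1, hB1⟩ := h1.bd
  obtain ⟨B2, hB2⟩ := h2.bd
  have b1 := (abs_nonneg _).trans (hB1 0 ⟨le_rfl, zero_le_one⟩)
  have b2 := (abs_nonneg _).trans (hB2 0 ⟨le_rfl, zero_le_one⟩)
  have hB : ∀ y ∈ Icc (0:ℝ) 1, |f y| ≤ B1 + B2 := by
    intro y hy
    have a1 := abs_le.1 (hB1 y hy)
    have a2 := abs_le.1 (hB2 y hy)
    have a3 := h3 y hy
    rw [abs_le]
    constructor
    · linarith [a1.1, a1.2, a2.1, a2.2, a3.1, a3.2]
    · linarith [a1.1, a1.2, a2.1, a2.2, a3.1, a3.2]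
  have s0 := wf_sm h hz hB
  have l1 : Ph a lam z f1 ≤ Ph a lam z f :=
    Summable.tsum_le_tsum (fun i => mul_le_mul_of_nonneg_left (h3 _ (y_mem h hz i)).1 (wt_nonneg h hz i))
      (wf_sm h hz hB1) s0
  have l2 : Ph a lam z f ≤ Ph a lam z f2 :=
    Summable.tsum_le_tsum (fun i => mul_le_mul_of_nonneg_left (h3 _ (y_mem h hz i)).2 (wt_nonneg h hz i))
      s0 (wf_sm h hz hB2)
  have e3 : κ * (ε / (2 * (κ + 1))) < ε / 2 := by
    rw [← mul_div_assoc, div_lt_div_iff₀ (by positivity) (by positivity)]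
    nlinarith
  have e4 : κ * (c - ε / (2 * (κ + 1))) ≤ κ * Ps f1 := mul_le_mul_of_nonneg_left h4 hκ
  have e5 : κ * Ps f2 ≤ κ * (c + ε / (2 * (κ + 1))) := mul_le_mul_of_nonneg_left h5 hκ
  unfold DD at e1 e2
  have e6 := abs_lt.1 e1
  have e7 := abs_lt.1 e2
  rw [abs_lt]
  constructor
  · linarith [e6.1, e6.2]
  · linarith [e7.1, e7.2]

/-- cutoff -/
noncomputable def cut (p η y : ℝ) : ℝ := min 1 (max 0 ((y - p) / η))

lemma cut_cont (p η : ℝ) : Continuous (cut p η) := by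
  unfold cut
  fun_prop

lemma cut_nonneg (p η y : ℝ) : 0 ≤ cut p η y := le_min zero_le_one (le_max_left _ _)

lemma cut_le (p η y : ℝ) : cut p η y ≤ 1 := min_le_left _ _

lemma cut_zero {p η y : ℝ} (hη : 0 < η) (h : y ≤ p) : cut p η y = 0 := by
  unfold cut
  rw [max_eq_left (div_nonpos_of_nonpos_of_nonneg (by linarith) hη.le)]
  simp

lemma cut_one {p η y : ℝ} (hη : 0 < η) (h : p + η ≤ y) : cut p η y = 1 := by
  unfold cut
  have : 1 ≤ (y - p) / η := by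
    rw [le_div_iff₀ hη]
    linarith
  rw [min_eq_left (this.trans (le_max_right _ _))]

lemma ev_small (c : ℝ) (hc : 0 < c) : ∀ᶠ η : ℝ in 𝓝[>] 0, 0 < η ∧ η < c := by
  filter_upwards [self_mem_nhdsWithin, mem_nhdsWithin_of_mem_nhds (gt_mem_nhds hc)] with η h1 h2
  exact ⟨h1, h2⟩

lemma Ps_lim {F : ℝ → ℝ → ℝ} {l : ℝ → ℝ} {B : ℝ} (hc : ∀ η : ℝ, 0 < η → CB (F η))
    (hB : ∀ η : ℝ, 0 < η → η < 1 / 4 → ∀ y ∈ Icc (0:ℝ) 1, |F η y| ≤ B)
    (hl : ∀ u : ℝ, 0 < u → Tendsto (fun η => F η (1 / (1 + u ^ 2)) * (1 / (1 + u ^ 2))) (𝓝[>] 0) (𝓝 (l u))) :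
    Tendsto (fun η => Ps (F η)) (𝓝[>] 0) (𝓝 (∫ u in Ioi (0:ℝ), l u)) := by
  have hev := ev_small (1 / 4) (by norm_num)
  unfold Ps
  refine tendsto_integral_filter_of_dominated_convergence (fun u => B * (1 / (1 + u ^ 2))) ?_ ?_
    (int_inv.const_mul B) ?_
  · filter_upwards [hev] with η hη
    exact (hc η hη.1).int.aestronglyMeasurable
  · filter_upwards [hev] with η hη
    refine Eventually.of_forall fun u => ?_
    rw [norm_mul, Real.norm_eq_abs, Real.norm_of_nonneg (by positivity : (0:ℝ) ≤ 1 / (1 + u ^ 2))]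
    exact mul_le_mul_of_nonneg_right (hB η hη.1 hη.2 _ (inv_mem u)) (by positivity)
  · exact (ae_restrict_mem measurableSet_Ioi).mono fun u hu => hl u hu

theorem sandwich' (h : Adm a lam) {κ : ℝ} (hκ : 0 ≤ κ)
    (hF : Tendsto (fun z => Real.sqrt z * FF a lam z) atTop (𝓝 (κ * (Real.pi / 2)))) {f : ℝ → ℝ}
    {F1 F2 : ℝ → ℝ → ℝ} {l1 l2 : ℝ → ℝ} {B c : ℝ}
    (hc1 : ∀ η : ℝ, 0 < η → CB (F1 η)) (hc2 : ∀ η : ℝ, 0 < η → CB (F2 η))
    (hB1 : ∀ η : ℝ, 0 < η → η < 1 / 4 → ∀ y ∈ Icc (0:ℝ) 1, |F1 η y| ≤ B)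
    (hB2 : ∀ η : ℝ, 0 < η → η < 1 / 4 → ∀ y ∈ Icc (0:ℝ) 1, |F2 η y| ≤ B)
    (hl1 : ∀ u : ℝ, 0 < u → Tendsto (fun η => F1 η (1 / (1 + u ^ 2)) * (1 / (1 + u ^ 2))) (𝓝[>] 0) (𝓝 (l1 u)))
    (hl2 : ∀ u : ℝ, 0 < u → Tendsto (fun η => F2 η (1 / (1 + u ^ 2)) * (1 / (1 + u ^ 2))) (𝓝[>] 0) (𝓝 (l2 u)))
    (e1 : ∫ u in Ioi (0:ℝ), l1 u = c) (e2 : ∫ u in Ioi (0:ℝ), l2 u = c)
    (hs : ∀ η : ℝ, 0 < η → η < 1 / 4 → ∀ y ∈ Icc (0:ℝ) 1, F1 η y ≤ f y ∧ f y ≤ F2 η y) :
    Tendsto (fun z => Ph a lam z f) atTop (𝓝 (κ * c)) := by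
  refine sandwich h hκ hF fun ε hε => ?_
  have t1 := Ps_lim hc1 hB1 hl1
  have t2 := Ps_lim hc2 hB2 hl2
  rw [e1] at t1
  rw [e2] at t2
  obtain ⟨η, ⟨⟨h1, h2⟩, h3⟩, h4⟩ := (((ev_small (1 / 4) (by norm_num)).and
    (t1.eventually (lt_mem_nhds (sub_lt_self c hε)))).and
    (t2.eventually (gt_mem_nhds (lt_add_of_pos_right c hε)))).exists
  exact ⟨F1 η, F2 η, hc1 η h1, hc2 η h1, hs η h1 h2, h3.le, h4.le⟩

/-- the functional of the counting function -/
noncomputable def fN (y : ℝ) : ℝ := if 1 / 2 ≤ y then 1 / y else 0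

lemma cut_div {p η y : ℝ} (q : ℝ) (hy : 0 < max y q) (hy4 : 1 / 4 ≤ max y q) :
    |cut p η y / max y q| ≤ 4 := by
  rw [abs_of_nonneg (div_nonneg (cut_nonneg _ _ _) hy.le), div_le_iff₀ hy]
  have := cut_le p η y
  linarith

theorem T2 (h : Adm a lam) {κ : ℝ} (hκ : 0 ≤ κ)
    (hF : Tendsto (fun z => Real.sqrt z * FF a lam z) atTop (𝓝 (κ * (Real.pi / 2)))) :
    Tendsto (fun z => Ph a lam z fN) atTop (𝓝 κ) := by
  have hm : ∀ y : ℝ, 1 / 4 ≤ max y (1 / 4) := fun y => le_max_right _ _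
  have hm0 : ∀ y : ℝ, 0 < max y (1 / 4) := fun y => lt_of_lt_of_le (by norm_num) (hm y)
  have hcb : ∀ p η : ℝ, CB (fun y => cut p η y / max y (1 / 4)) := by
    intro p η
    refine Continuous.continuousOn (Continuous.div (cut_cont p η) (by fun_prop) fun y => (hm0 y).ne')
  have hmax : ∀ y : ℝ, 1 / 4 ≤ y → max y (1 / 4) = y := fun y hy => max_eq_left hy
  have hyu : ∀ u : ℝ, 0 < 1 / (1 + u ^ 2) := fun u => by positivity
  have key := sandwich' h hκ hF (f := fN) (F1 := fun η y => cut (1 / 2) η y / max y (1 / 4))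
    (F2 := fun η y => cut (1 / 2 - η) η y / max y (1 / 4)) (l1 := (Iio (1:ℝ)).indicator fun _ => 1)
    (l2 := (Iic (1:ℝ)).indicator fun _ => 1) (B := 4) (c := 1) (fun η _ => hcb _ _) (fun η _ => hcb _ _)
    (fun η _ _ y _ => cut_div _ (hm0 y) (hm y)) (fun η _ _ y _ => cut_div _ (hm0 y) (hm y)) ?_ ?_ ?_ ?_ ?_
  · rwa [mul_one] at key
  · intro u hu
    rcases lt_or_ge u 1 with h1 | h1
    · have h2 : 1 / 2 < 1 / (1 + u ^ 2) := by
        apply one_div_lt_one_div_of_lt (by positivity)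
        nlinarith
      rw [indicator_of_mem (show u ∈ Iio 1 from h1)]
      refine tendsto_const_nhds.congr' ?_
      filter_upwards [ev_small (1 / (1 + u ^ 2) - 1 / 2) (by linarith)] with η hη
      show (1:ℝ) = cut (1 / 2) η (1 / (1 + u ^ 2)) / max (1 / (1 + u ^ 2)) (1 / 4) * (1 / (1 + u ^ 2))
      rw [cut_one hη.1 (by linarith [hη.2]), hmax _ (by linarith)]
      field_simp
    · have h2 : 1 / (1 + u ^ 2) ≤ 1 / 2 := by
        apply one_div_le_one_div_of_le (by norm_num)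
        nlinarith
      rw [indicator_of_notMem (by simpa using h1)]
      refine tendsto_const_nhds.congr' ?_
      filter_upwards [ev_small 1 one_pos] with η hη
      show (0:ℝ) = cut (1 / 2) η (1 / (1 + u ^ 2)) / max (1 / (1 + u ^ 2)) (1 / 4) * (1 / (1 + u ^ 2))
      rw [cut_zero hη.1 h2]
      simp
  · intro u hu
    rcases le_or_gt u 1 with h1 | h1
    · have h2 : 1 / 2 ≤ 1 / (1 + u ^ 2) := by
        apply one_div_le_one_div_of_le (by positivity)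
        nlinarith
      rw [indicator_of_mem (show u ∈ Iic 1 from h1)]
      refine tendsto_const_nhds.congr' ?_
      filter_upwards [ev_small 1 one_pos] with η hη
      show (1:ℝ) = cut (1 / 2 - η) η (1 / (1 + u ^ 2)) / max (1 / (1 + u ^ 2)) (1 / 4) * (1 / (1 + u ^ 2))
      rw [cut_one hη.1 (by linarith), hmax _ (by linarith)]
      field_simp
    · have h2 : 1 / (1 + u ^ 2) < 1 / 2 := by
        apply one_div_lt_one_div_of_lt (by norm_num)
        nlinarith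
      rw [indicator_of_notMem (by simpa using h1)]
      refine tendsto_const_nhds.congr' ?_
      filter_upwards [ev_small (1 / 2 - 1 / (1 + u ^ 2)) (by linarith)] with η hη
      show (0:ℝ) = cut (1 / 2 - η) η (1 / (1 + u ^ 2)) / max (1 / (1 + u ^ 2)) (1 / 4) * (1 / (1 + u ^ 2))
      rw [cut_zero hη.1 (by linarith [hη.2])]
      simp
  · rw [setIntegral_indicator measurableSet_Iio, Ioi_inter_Iio]
    simp
  · rw [setIntegral_indicator measurableSet_Iic, Ioi_inter_Iic]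
    simp
  · intro η h1 h2 y hy
    unfold fN
    split_ifs with h3
    · rw [hmax y (by linarith)]
      constructor
      · have := cut_le (1 / 2) η y
        gcongr
      · rw [cut_one h1 (by linarith)]
    · rw [not_le] at h3
      constructor
      · rw [cut_zero h1 h3.le, zero_div]
      · exact div_nonneg (cut_nonneg _ _ _) (hm0 y).le

/-- `sinc²(v/2)` -/
noncomputable def ph (v : ℝ) : ℝ := Real.sinc (v / 2) ^ 2

lemma ph_cont : Continuous ph := by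
  unfold ph
  exact (Real.continuous_sinc.comp (by fun_prop)).pow 2

lemma ph_nonneg (v : ℝ) : 0 ≤ ph v := sq_nonneg _

lemma ph_mul (v : ℝ) : v ^ 2 * ph v = 4 * Real.sin (v / 2) ^ 2 := by
  unfold ph
  rcases eq_or_ne v 0 with h | h
  · simp [h]
  · rw [Real.sinc_of_ne_zero (by positivity)]
    field_simp
    ring

lemma ph_bd (v : ℝ) : ph v * (1 + v ^ 2) ≤ 5 := by
  have h1 : ph v ≤ 1 := by
    unfold ph
    have := Real.abs_sinc_le_one (v / 2)
    rw [← sq_abs]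
    exact pow_le_one₀ (abs_nonneg _) this
  have h2 := ph_mul v
  have h3 : Real.sin (v / 2) ^ 2 ≤ 1 := Real.sin_sq_le_one _
  nlinarith

/-- the functional of the sum of sines -/
noncomputable def fG (y : ℝ) : ℝ := ph (Real.sqrt ((1 - y) / y)) / y

lemma fG_bd {y : ℝ} (hy : y ∈ Icc (0:ℝ) 1) : 0 ≤ fG y ∧ fG y ≤ 5 := by
  unfold fG
  rcases hy.1.eq_or_lt with h | h
  · rw [← h]
    simp
  · refine ⟨div_nonneg (ph_nonneg _) h.le, ?_⟩
    have h1 := ph_bd (Real.sqrt ((1 - y) / y))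
    rw [Real.sq_sqrt (div_nonneg (by linarith [hy.2]) h.le)] at h1
    have h2 : 1 + (1 - y) / y = 1 / y := by
      field_simp
      ring
    rw [h2] at h1
    rwa [mul_one_div] at h1

theorem T5 (h : Adm a lam) {κ : ℝ} (hκ : 0 ≤ κ)
    (hF : Tendsto (fun z => Real.sqrt z * FF a lam z) atTop (𝓝 (κ * (Real.pi / 2)))) :
    Tendsto (fun z => Ph a lam z fG) atTop (𝓝 (κ * ∫ u in Ioi (0:ℝ), ph u)) := by
  obtain ⟨G, hG⟩ : ∃ G : ℝ → ℝ → ℝ, G = fun η y => ph (Real.sqrt ((1 - y) / max y η)) / max y η := ⟨_, rfl⟩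
  have hGc : ∀ η : ℝ, 0 < η → Continuous (G η) := by
    intro η hη
    have hm : ∀ y : ℝ, max y η ≠ 0 := fun y => (lt_of_lt_of_le hη (le_max_right _ _)).ne'
    rw [hG]
    refine Continuous.div (ph_cont.comp (Real.continuous_sqrt.comp ?_)) (by fun_prop) hm
    exact Continuous.div (by fun_prop) (by fun_prop) hm
  have hGf : ∀ η y : ℝ, η ≤ y → G η y = fG y := by
    intro η y hy
    rw [hG]
    unfold fG
    simp only
    rw [max_eq_left hy]
  have hcut : ∀ η y : ℝ, 0 < η → y ∈ Icc (0:ℝ) 1 → 0 ≤ cut η η y * G η y ∧ cut η η y * G η y ≤ 5 * cut η η y ∧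
      cut η η y * G η y ≤ fG y ∧ fG y ≤ cut η η y * G η y + 5 * (1 - cut η η y) := by
    intro η y hη hy
    have c0 := cut_nonneg η η y
    have c1 := cut_le η η y
    obtain ⟨f0, f5⟩ := fG_bd hy
    rcases le_or_gt y η with h1 | h1
    · rw [cut_zero hη h1]
      refine ⟨by simp, by simp, by simpa using f0, by simpa using f5⟩
    · rw [hGf η y h1.le]
      refine ⟨by positivity, by nlinarith, by nlinarith, by nlinarith⟩
  have hlim : ∀ u : ℝ, 0 < u → ∀ᶠ η : ℝ in 𝓝[>] 0, cut η η (1 / (1 + u ^ 2)) = 1 ∧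
      G η (1 / (1 + u ^ 2)) * (1 / (1 + u ^ 2)) = ph u := by
    intro u hu
    have hy : 0 < 1 / (1 + u ^ 2) := by positivity
    filter_upwards [ev_small (1 / (1 + u ^ 2) / 2) (by positivity)] with η hη
    refine ⟨cut_one hη.1 (by linarith [hη.2]), ?_⟩
    rw [hGf _ _ (by linarith [hη.2])]
    unfold fG
    have h1 : (1 - 1 / (1 + u ^ 2)) / (1 / (1 + u ^ 2)) = u ^ 2 := by
      field_simp
      ring
    rw [h1, Real.sqrt_sq hu.le]
    field_simp
  refine sandwich' h hκ hF (f := fG) (F1 := fun η y => cut η η y * G η y)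
    (F2 := fun η y => cut η η y * G η y + 5 * (1 - cut η η y)) (l1 := ph) (l2 := ph) (B := 5)
    (fun η hη => ((cut_cont η η).mul (hGc η hη)).continuousOn)
    (fun η hη => (((cut_cont η η).mul (hGc η hη)).add
      (continuous_const.mul (continuous_const.sub (cut_cont η η)))).continuousOn) ?_ ?_ ?_ ?_ rfl rfl ?_
  · intro η h1 _ y hy
    have h2 := hcut η y h1 hy
    have := cut_le η η y
    rw [abs_of_nonneg h2.1]
    linarith [h2.2.1]
  · intro η h1 _ y hy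
    have h2 := hcut η y h1 hy
    have := cut_le η η y
    rw [abs_of_nonneg (by linarith [h2.1])]
    linarith [h2.2.1]
  · intro u hu
    refine tendsto_const_nhds.congr' ?_
    filter_upwards [hlim u hu] with η hη
    show ph u = cut η η (1 / (1 + u ^ 2)) * G η (1 / (1 + u ^ 2)) * (1 / (1 + u ^ 2))
    rw [hη.1, one_mul, hη.2]
  · intro u hu
    refine tendsto_const_nhds.congr' ?_
    filter_upwards [hlim u hu] with η hη
    show ph u = (cut η η (1 / (1 + u ^ 2)) * G η (1 / (1 + u ^ 2)) + 5 * (1 - cut η η (1 / (1 + u ^ 2)))) *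
      (1 / (1 + u ^ 2))
    rw [hη.1, one_mul, sub_self, mul_zero, add_zero, hη.2]
  · intro η h1 _ y hy
    exact (hcut η y h1 hy).2.2

end Pool.Agent.R613.GC
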