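import Pool.Agent.R613.GC.B1

set_option autoImplicit false

/-! # A Tauberian theorem for sums of sines -/

namespace Pool.Agent.R613.GC

open MeasureTheory Filter Topology Set

variable {ι : Type} {b g : ι → ℝ}

/-- the counting function -/
noncomputable def NN (b g : ι → ℝ) (T : ℝ) : ℝ := ∑' i, if g i ≤ T then b i * g i ^ 2 else 0

/-- the sum of sines -/
noncomputable def GG (b g : ι → ℝ) (L : ℝ) : ℝ := ∑' i, b i * (4 * Real.sin (g i * L / 2) ^ 2)

/-- the Stieltjes transform -/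
noncomputable def FZ (b g : ι → ℝ) (z : ℝ) : ℝ := FF (fun i => b i * g i ^ 2) (fun i => g i ^ 2) z

lemma adm (hb : ∀ i, 0 ≤ b i) (hg : ∀ i, 0 < g i) (hs : Summable b) :
    Adm (fun i => b i * g i ^ 2) (fun i => g i ^ 2) where
  a0 i := mul_nonneg (hb i) (sq_nonneg _)
  l0 i := pow_pos (hg i) 2
  sm := by
    refine hs.congr fun i => ?_
    have := (hg i).ne'
    field_simp

lemma Ph_N (hg : ∀ i, 0 < g i) {z : ℝ} (hz : 0 < z) :
    Ph (fun i => b i * g i ^ 2) (fun i => g i ^ 2) z fN = NN b g (Real.sqrt z) / Real.sqrt z := by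
  unfold Ph NN wt fN
  rw [← tsum_div_const]
  refine tsum_congr fun i => ?_
  have h1 := hg i
  have h2 : 1 / 2 ≤ z / (z + g i ^ 2) ↔ g i ≤ Real.sqrt z := by
    rw [Real.le_sqrt' h1, div_le_div_iff₀ (by norm_num) (by positivity)]
    constructor <;> intro h <;> linarith
  simp only [h2]
  split_ifs with h3
  · have h4 : Real.sqrt z * Real.sqrt z = z := Real.mul_self_sqrt hz.le
    have h5 : 0 < Real.sqrt z := Real.sqrt_pos.2 hz
    have h6 : 0 < z + g i ^ 2 := by positivity
    rw [eq_div_iff h5.ne']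
    have h7 : Real.sqrt z * (b i * g i ^ 2 / (z + g i ^ 2)) * (1 / (z / (z + g i ^ 2))) * Real.sqrt z =
        (Real.sqrt z * Real.sqrt z) * (b i * g i ^ 2) / z := by
      field_simp
    rw [h7, h4]
    field_simp
  · simp

lemma Ph_G (hg : ∀ i, 0 < g i) {s : ℝ} (hs : 0 < s) :
    Ph (fun i => b i * g i ^ 2) (fun i => g i ^ 2) (s ^ 2) fG = s * GG b g (1 / s) := by
  unfold Ph GG wt fG
  rw [← tsum_mul_left]
  refine tsum_congr fun i => ?_
  have h1 := hg i
  have h2 : (1 - s ^ 2 / (s ^ 2 + g i ^ 2)) / (s ^ 2 / (s ^ 2 + g i ^ 2)) = (g i / s) ^ 2 := by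
    field_simp
    ring
  beta_reduce
  rw [h2, Real.sqrt_sq (show 0 ≤ g i / s by positivity), Real.sqrt_sq hs.le]
  have h3 := ph_mul (g i / s)
  have h4 : g i / s / 2 = g i * (1 / s) / 2 := by ring
  rw [h4] at h3
  rw [← h3]
  have h5 : 0 < s ^ 2 + g i ^ 2 := by positivity
  field_simp

lemma toZ {c : ℝ} (h : Tendsto (fun s => s * FZ b g (s ^ 2)) atTop (𝓝 c)) :
    Tendsto (fun z => Real.sqrt z * FF (fun i => b i * g i ^ 2) (fun i => g i ^ 2) z) atTop (𝓝 c) := by
  refine (h.comp Real.tendsto_sqrt_atTop).congr' ?_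
  filter_upwards [eventually_ge_atTop (0:ℝ)] with z hz
  simp only [Function.comp]
  rw [Real.sq_sqrt hz]
  rfl

lemma lap (k : ℝ) : IntegrableOn (fun u : ℝ => 4 * Real.sin (k * u / 2) ^ 2 * Real.exp (-u)) (Ioi 0) ∧
    ∫ u in Ioi (0:ℝ), 4 * Real.sin (k * u / 2) ^ 2 * Real.exp (-u) = 2 * k ^ 2 / (1 + k ^ 2) := by
  have hd : ∀ u : ℝ, HasDerivAt
      (fun u => -2 * Real.exp (-u) * (1 + (k * Real.sin (k * u) - Real.cos (k * u)) / (1 + k ^ 2)))
      (4 * Real.sin (k * u / 2) ^ 2 * Real.exp (-u)) u := by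
    intro u
    have h1 : HasDerivAt (fun u : ℝ => Real.exp (-u)) (Real.exp (-u) * (-1)) u := (hasDerivAt_neg u).exp
    have h0 : HasDerivAt (fun u : ℝ => k * u) k u := by
      simpa using (hasDerivAt_id u).const_mul k
    have h2 : HasDerivAt (fun u : ℝ => Real.sin (k * u)) (Real.cos (k * u) * k) u := h0.sin
    have h3 : HasDerivAt (fun u : ℝ => Real.cos (k * u)) (-Real.sin (k * u) * k) u := h0.cos
    have h4 := (h1.const_mul (-2)).mul ((((h2.const_mul k).sub h3).div_const (1 + k ^ 2)).const_add 1)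
    refine HasDerivAt.congr_deriv h4 ?_
    simp only [Pi.sub_apply]
    have h5 : Real.sin (k * u / 2) ^ 2 = 1 / 2 - Real.cos (k * u) / 2 := by
      rw [Real.sin_sq_eq_half_sub]
      congr 3
      ring
    have h6 : 0 < 1 + k ^ 2 := by positivity
    rw [h5]
    field_simp
    ring
  have hlim : Tendsto (fun u : ℝ => -2 * Real.exp (-u) * (1 + (k * Real.sin (k * u) - Real.cos (k * u)) / (1 + k ^ 2)))
      atTop (𝓝 0) := by
    have h1 : Tendsto (fun u : ℝ => 2 * (1 + (|k| + 1)) * Real.exp (-u)) atTop (𝓝 (2 * (1 + (|k| + 1)) * 0)) :=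
      (Real.tendsto_exp_neg_atTop_nhds_zero).const_mul _
    rw [mul_zero] at h1
    refine squeeze_zero_norm (fun u => ?_) h1
    rw [norm_mul, norm_mul, Real.norm_of_nonneg (Real.exp_pos _).le]
    have h2 : ‖(1:ℝ) + (k * Real.sin (k * u) - Real.cos (k * u)) / (1 + k ^ 2)‖ ≤ 1 + (|k| + 1) := by
      refine (norm_add_le _ _).trans ?_
      rw [norm_one, norm_div, Real.norm_of_nonneg (by positivity : (0:ℝ) ≤ 1 + k ^ 2)]
      gcongr
      rw [div_le_iff₀ (by positivity)]
      have h3 : ‖k * Real.sin (k * u) - Real.cos (k * u)‖ ≤ |k| + 1 := by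
        refine (norm_sub_le _ _).trans ?_
        rw [norm_mul]
        have h4 : ‖Real.sin (k * u)‖ ≤ 1 := Real.abs_sin_le_one _
        have h5 : ‖Real.cos (k * u)‖ ≤ 1 := Real.abs_cos_le_one _
        have h6 : ‖k‖ = |k| := rfl
        rw [h6]
        nlinarith [abs_nonneg k]
      nlinarith [sq_nonneg k, abs_nonneg k]
    have h3 : ‖(-2:ℝ)‖ = 2 := by norm_num
    rw [h3]
    have h4 := Real.exp_pos (-u)
    nlinarith
  have hnn : ∀ u ∈ Ioi (0:ℝ), 0 ≤ 4 * Real.sin (k * u / 2) ^ 2 * Real.exp (-u) := fun u _ => by positivity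
  refine ⟨integrableOn_Ioi_deriv_of_nonneg' (fun u _ => hd u) hnn hlim, ?_⟩
  rw [integral_Ioi_of_hasDerivAt_of_nonneg' (fun u _ => hd u) hnn hlim]
  have h6 : 0 < 1 + k ^ 2 := by positivity
  simp only [neg_zero, Real.exp_zero, mul_zero, Real.sin_zero, Real.cos_zero]
  field_simp
  ring

lemma lapG [Countable ι] (hb : ∀ i, 0 ≤ b i) (hs : Summable b) {s : ℝ} (hs0 : 0 < s) :
    ∫ u in Ioi (0:ℝ), GG b g (u / s) * Real.exp (-u) = 2 * FZ b g (s ^ 2) := by
  obtain ⟨F, hF⟩ : ∃ F : ι → ℝ → ℝ, F = fun i u => b i * (4 * Real.sin (g i / s * u / 2) ^ 2 * Real.exp (-u)) :=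
    ⟨_, rfl⟩
  have hint : ∀ i, Integrable (F i) (volume.restrict (Ioi 0)) := by
    intro i
    rw [hF]
    exact (lap (g i / s)).1.const_mul _
  have hval : ∀ i, ∫ u in Ioi (0:ℝ), F i u = 2 * (b i * g i ^ 2 / (s ^ 2 + g i ^ 2)) := by
    intro i
    rw [hF]
    simp only
    rw [integral_const_mul, (lap (g i / s)).2]
    have h5 : 0 < s ^ 2 + g i ^ 2 := by positivity
    have h6 : 0 < 1 + (g i / s) ^ 2 := by positivity
    field_simp
  have hnn : ∀ i u, 0 ≤ F i u := by
    intro i u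
    rw [hF]
    have := hb i
    simp only
    positivity
  have hnorm : ∀ i, ∫ u in Ioi (0:ℝ), ‖F i u‖ = 2 * (b i * g i ^ 2 / (s ^ 2 + g i ^ 2)) := by
    intro i
    rw [← hval i]
    congr 1
    funext u
    exact Real.norm_of_nonneg (hnn i u)
  have hsum : Summable fun i => 2 * (b i * g i ^ 2 / (s ^ 2 + g i ^ 2)) := by
    refine Summable.mul_left _ (Summable.of_nonneg_of_le (fun i => ?_) (fun i => ?_) hs)
    · have := hb i
      positivity
    · have := hb i
      rw [div_le_iff₀ (by positivity)]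
      nlinarith [mul_nonneg (hb i) (sq_nonneg s)]
  have key := hasSum_integral_of_summable_integral_norm hint (by simpa only [hnorm] using hsum)
  have e1 : ∀ u : ℝ, ∑' i, F i u = GG b g (u / s) * Real.exp (-u) := by
    intro u
    unfold GG
    rw [← tsum_mul_right]
    refine tsum_congr fun i => ?_
    rw [hF]
    simp only
    have : g i / s * u / 2 = g i * (u / s) / 2 := by ring
    rw [this]
    ring
  simp only [hval, e1] at key
  rw [← key.tsum_eq, tsum_mul_left]
  rfl

lemma GG_cont (hb : ∀ i, 0 ≤ b i) (hs : Summable b) : Continuous (GG b g) := by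
  unfold GG
  refine continuous_tsum (fun i => by fun_prop) (hs.mul_left 4) fun i L => ?_
  rw [Real.norm_of_nonneg (by have := hb i; positivity)]
  have := Real.sin_sq_le_one (g i * L / 2)
  nlinarith [hb i]

lemma GG_le (hb : ∀ i, 0 ≤ b i) (hs : Summable b) (L : ℝ) : 0 ≤ GG b g L ∧ GG b g L ≤ 4 * ∑' i, b i := by
  unfold GG
  have h1 : ∀ i, b i * (4 * Real.sin (g i * L / 2) ^ 2) ≤ 4 * b i := by
    intro i
    have := Real.sin_sq_le_one (g i * L / 2)
    nlinarith [hb i]
  have h0 : ∀ i, 0 ≤ b i * (4 * Real.sin (g i * L / 2) ^ 2) := by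
    intro i
    have := hb i
    positivity
  refine ⟨tsum_nonneg h0, ?_⟩
  rw [← tsum_mul_left]
  exact Summable.tsum_le_tsum h1 (Summable.of_nonneg_of_le h0 h1 (hs.mul_left 4)) (hs.mul_left 4)

lemma ue : IntegrableOn (fun u : ℝ => u * Real.exp (-u)) (Ioi 0) ∧ ∫ u in Ioi (0:ℝ), u * Real.exp (-u) = 1 := by
  have hd : ∀ u : ℝ, HasDerivAt (fun u => -((u + 1) * Real.exp (-u))) (u * Real.exp (-u)) u := by
    intro u
    have h1 : HasDerivAt (fun u : ℝ => Real.exp (-u)) (Real.exp (-u) * (-1)) u := (hasDerivAt_neg u).exp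
    have h2 := (((hasDerivAt_id u).add_const 1).mul h1).neg
    refine HasDerivAt.congr_deriv h2 ?_
    show -(1 * Real.exp (-u) + (u + 1) * (Real.exp (-u) * (-1))) = u * Real.exp (-u)
    ring
  have hlim : Tendsto (fun u : ℝ => -((u + 1) * Real.exp (-u))) atTop (𝓝 0) := by
    have h1 := Real.tendsto_pow_mul_exp_neg_atTop_nhds_zero 1
    have h2 := (h1.add Real.tendsto_exp_neg_atTop_nhds_zero).neg
    rw [add_zero, neg_zero] at h2
    refine h2.congr fun u => ?_
    ring
  have hnn : ∀ u ∈ Ioi (0:ℝ), 0 ≤ u * Real.exp (-u) := fun u hu => by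
    have : 0 < u := hu
    positivity
  refine ⟨integrableOn_Ioi_deriv_of_nonneg' (fun u _ => hd u) hnn hlim, ?_⟩
  rw [integral_Ioi_of_hasDerivAt_of_nonneg' (fun u _ => hd u) hnn hlim]
  simp

theorem T4 [Countable ι] (hb : ∀ i, 0 ≤ b i) (hs : Summable b) {κ : ℝ}
    (hG : Tendsto (fun L => GG b g L / L) (𝓝[>] 0) (𝓝 κ)) :
    Tendsto (fun s => s * FZ b g (s ^ 2)) atTop (𝓝 (κ / 2)) := by
  have hB0 : 0 ≤ ∑' i, b i := tsum_nonneg hb
  obtain ⟨C, hC⟩ : ∃ C : ℝ, ∀ L : ℝ, 0 < L → GG b g L / L ≤ C := by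
    have h1 := hG.eventually (gt_mem_nhds (lt_add_one κ))
    obtain ⟨δ, hδ, h2⟩ := mem_nhdsGT_iff_exists_Ioo_subset.1 h1
    have hδ0 : 0 < δ := hδ
    refine ⟨max (κ + 1) (4 * (∑' i, b i) / δ), fun L hL => ?_⟩
    rcases lt_or_ge L δ with h3 | h3
    · exact (le_of_lt (h2 ⟨hL, h3⟩)).trans (le_max_left _ _)
    · refine le_trans ?_ (le_max_right _ _)
      have := (GG_le (g := g) hb hs L).2
      gcongr
  have h1 : ∀ s : ℝ, 0 < s → (1 / 2) * ∫ u in Ioi (0:ℝ), GG b g (u / s) / (u / s) * (u * Real.exp (-u)) =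
      s * FZ b g (s ^ 2) := by
    intro s hs0
    have h2 : ∫ u in Ioi (0:ℝ), GG b g (u / s) / (u / s) * (u * Real.exp (-u)) =
        s * ∫ u in Ioi (0:ℝ), GG b g (u / s) * Real.exp (-u) := by
      rw [← integral_const_mul]
      refine setIntegral_congr_fun measurableSet_Ioi fun u hu => ?_
      have : 0 < u := hu
      show GG b g (u / s) / (u / s) * (u * Real.exp (-u)) = s * (GG b g (u / s) * Real.exp (-u))
      field_simp
    rw [h2, lapG hb hs hs0]
    ring
  have h2 : Tendsto (fun s : ℝ => ∫ u in Ioi (0:ℝ), GG b g (u / s) / (u / s) * (u * Real.exp (-u))) atTop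
      (𝓝 (∫ u in Ioi (0:ℝ), κ * (u * Real.exp (-u)))) := by
    refine tendsto_integral_filter_of_dominated_convergence (fun u => C * (u * Real.exp (-u))) ?_ ?_
      (ue.1.const_mul C) ?_
    · refine Eventually.of_forall fun s => Measurable.aestronglyMeasurable ?_
      exact (((GG_cont hb hs).measurable.comp (measurable_id.div_const s)).div (measurable_id.div_const s)).mul
        (measurable_id.mul (Real.measurable_exp.comp measurable_id.neg))
    · filter_upwards [eventually_gt_atTop (0:ℝ)] with s hs0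
      refine (ae_restrict_mem measurableSet_Ioi).mono fun u hu => ?_
      have hu0 : 0 < u := hu
      have h3 : 0 ≤ u * Real.exp (-u) := by positivity
      have h4 := (GG_le (g := g) hb hs (u / s)).1
      rw [norm_mul, Real.norm_of_nonneg h3, Real.norm_of_nonneg (by positivity)]
      exact mul_le_mul_of_nonneg_right (hC _ (by positivity)) h3
    · refine (ae_restrict_mem measurableSet_Ioi).mono fun u hu => ?_
      have hu0 : 0 < u := hu
      have h3 : Tendsto (fun s : ℝ => u / s) atTop (𝓝[>] 0) := by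
        rw [tendsto_nhdsWithin_iff]
        refine ⟨tendsto_const_nhds.div_atTop tendsto_id, ?_⟩
        filter_upwards [eventually_gt_atTop (0:ℝ)] with s hs0
        exact div_pos hu0 hs0
      exact (hG.comp h3).mul_const _
  rw [integral_const_mul, ue.2, mul_one] at h2
  have h3 := h2.const_mul (1 / 2)
  have e : 1 / 2 * κ = κ / 2 := by ring
  rw [e] at h3
  refine h3.congr' ?_
  filter_upwards [eventually_gt_atTop (0:ℝ)] with s hs0
  exact h1 s hs0

/-! ## The counting function -/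

lemma NN_term (hb : ∀ i, 0 ≤ b i) (hg : ∀ i, 0 < g i) (T : ℝ) (i : ι) :
    0 ≤ (if g i ≤ T then b i * g i ^ 2 else 0) ∧ (if g i ≤ T then b i * g i ^ 2 else 0) ≤ b i * T ^ 2 := by
  have h1 := hb i
  have h2 := hg i
  split_ifs with h
  · refine ⟨by positivity, ?_⟩
    gcongr
  · exact ⟨le_rfl, by positivity⟩

lemma NN_sm (hb : ∀ i, 0 ≤ b i) (hg : ∀ i, 0 < g i) (hs : Summable b) (T : ℝ) :
    Summable fun i => if g i ≤ T then b i * g i ^ 2 else 0 :=
  Summable.of_nonneg_of_le (fun i => (NN_term hb hg T i).1) (fun i => (NN_term hb hg T i).2) (hs.mul_right _)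

lemma NN_le (hb : ∀ i, 0 ≤ b i) (hg : ∀ i, 0 < g i) (hs : Summable b) (T : ℝ) :
    0 ≤ NN b g T ∧ NN b g T ≤ (∑' i, b i) * T ^ 2 := by
  refine ⟨tsum_nonneg fun i => (NN_term hb hg T i).1, ?_⟩
  unfold NN
  rw [← tsum_mul_right]
  exact Summable.tsum_le_tsum (fun i => (NN_term hb hg T i).2) (NN_sm hb hg hs T) (hs.mul_right _)

lemma NN_mono (hb : ∀ i, 0 ≤ b i) (hg : ∀ i, 0 < g i) (hs : Summable b) : Monotone (NN b g) := by
  intro S T hST
  refine Summable.tsum_le_tsum (fun i => ?_) (NN_sm hb hg hs S) (NN_sm hb hg hs T)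
  have h1 := hb i
  by_cases h : g i ≤ S
  · rw [if_pos h, if_pos (h.trans hST)]
  · rw [if_neg h]
    exact (NN_term hb hg T i).1

/-- the kernel -/
noncomputable def kr (u : ℝ) : ℝ := 2 * u / (1 + u ^ 2) ^ 2

lemma kr_tail {k : ℝ} (hk : 0 ≤ k) : IntegrableOn kr (Ioi k) ∧ ∫ u in Ioi k, kr u = 1 / (1 + k ^ 2) := by
  have hd : ∀ u : ℝ, HasDerivAt (fun u => -(1 + u ^ 2)⁻¹) (kr u) u := by
    intro u
    have h0 : (1:ℝ) + u ^ 2 ≠ 0 := by positivity
    have h1 : HasDerivAt (fun u : ℝ => 1 + u ^ 2) (2 * u) u := by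
      have := (hasDerivAt_pow 2 u).const_add 1
      simpa using this
    have h2 := (h1.inv h0).neg
    refine HasDerivAt.congr_deriv h2 ?_
    unfold kr
    ring
  have hlim : Tendsto (fun u : ℝ => -(1 + u ^ 2)⁻¹) atTop (𝓝 0) := by
    have h1 : Tendsto (fun u : ℝ => 1 + u ^ 2) atTop atTop :=
      tendsto_atTop_add_const_left _ _ (tendsto_pow_atTop (by norm_num))
    have := (tendsto_inv_atTop_zero.comp h1).neg
    rw [neg_zero] at this
    exact this
  have hnn : ∀ u ∈ Ioi k, 0 ≤ kr u := fun u hu => by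
    have : 0 < u := lt_of_le_of_lt hk hu
    unfold kr
    positivity
  refine ⟨integrableOn_Ioi_deriv_of_nonneg' (fun u _ => hd u) hnn hlim, ?_⟩
  rw [integral_Ioi_of_hasDerivAt_of_nonneg' (fun u _ => hd u) hnn hlim]
  rw [one_div]
  ring

lemma krs : IntegrableOn (fun u : ℝ => u * kr u) (Ioi 0) ∧ ∫ u in Ioi (0:ℝ), u * kr u = Real.pi / 2 := by
  have hd : ∀ u : ℝ, HasDerivAt (fun u => Real.arctan u - u * (1 + u ^ 2)⁻¹) (u * kr u) u := by
    intro u
    have h0 : (1:ℝ) + u ^ 2 ≠ 0 := by positivity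
    have h1 : HasDerivAt (fun u : ℝ => 1 + u ^ 2) (2 * u) u := by
      have := (hasDerivAt_pow 2 u).const_add 1
      simpa using this
    have h2 := (Real.hasDerivAt_arctan u).sub ((hasDerivAt_id u).mul (h1.inv h0))
    refine HasDerivAt.congr_deriv h2 ?_
    show 1 / (1 + u ^ 2) - (1 * (1 + u ^ 2)⁻¹ + u * (-(2 * u) / (1 + u ^ 2) ^ 2)) = u * kr u
    unfold kr
    field_simp
    ring
  have hlim : Tendsto (fun u : ℝ => Real.arctan u - u * (1 + u ^ 2)⁻¹) atTop (𝓝 (Real.pi / 2)) := by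
    have h1 : Tendsto (fun u : ℝ => u * (1 + u ^ 2)⁻¹) atTop (𝓝 0) := by
      refine squeeze_zero' ?_ ?_ tendsto_inv_atTop_zero
      · filter_upwards [eventually_gt_atTop (0:ℝ)] with u hu
        positivity
      · filter_upwards [eventually_gt_atTop (0:ℝ)] with u hu
        rw [← div_eq_mul_inv, div_le_iff₀ (by positivity), inv_mul_eq_div, le_div_iff₀ hu]
        nlinarith
    have h2 := (tendsto_nhds_of_tendsto_nhdsWithin Real.tendsto_arctan_atTop).sub h1
    rwa [sub_zero] at h2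
  have hnn : ∀ u ∈ Ioi (0:ℝ), 0 ≤ u * kr u := fun u hu => by
    have : 0 < u := hu
    unfold kr
    positivity
  refine ⟨integrableOn_Ioi_deriv_of_nonneg' (fun u _ => hd u) hnn hlim, ?_⟩
  rw [integral_Ioi_of_hasDerivAt_of_nonneg' (fun u _ => hd u) hnn hlim]
  simp

lemma lapN [Countable ι] (hb : ∀ i, 0 ≤ b i) (hg : ∀ i, 0 < g i) (hs : Summable b) {s : ℝ} (hs0 : 0 < s) :
    ∫ u in Ioi (0:ℝ), NN b g (s * u) * kr u = s ^ 2 * FZ b g (s ^ 2) := by
  obtain ⟨F, hF⟩ : ∃ F : ι → ℝ → ℝ, F = fun i => (Ici (g i / s)).indicator fun u => (b i * g i ^ 2) * kr u :=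
    ⟨_, rfl⟩
  have hk : ∀ i, 0 < g i / s := fun i => div_pos (hg i) hs0
  have hint : ∀ i, Integrable (F i) (volume.restrict (Ioi 0)) := by
    intro i
    rw [hF]
    exact ((kr_tail le_rfl).1.const_mul _).indicator measurableSet_Ici
  have hval : ∀ i, ∫ u in Ioi (0:ℝ), F i u = s ^ 2 * (b i * g i ^ 2 / (s ^ 2 + g i ^ 2)) := by
    intro i
    have h1 : Ioi (0:ℝ) ∩ Ici (g i / s) = Ici (g i / s) :=
      inter_eq_right.2 fun u hu => lt_of_lt_of_le (hk i) hu
    rw [hF]
    simp only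
    rw [setIntegral_indicator measurableSet_Ici, h1, integral_Ici_eq_integral_Ioi, integral_const_mul,
      (kr_tail (hk i).le).2]
    have h5 : 0 < s ^ 2 + g i ^ 2 := by positivity
    have h6 : 0 < 1 + (g i / s) ^ 2 := by positivity
    field_simp
  have hnn : ∀ i, ∀ u ∈ Ioi (0:ℝ), 0 ≤ F i u := by
    intro i u hu
    have h0 : 0 < u := hu
    rw [hF]
    apply indicator_nonneg
    intro v hv
    have h1 : 0 < v := lt_of_lt_of_le (hk i) hv
    have := hb i
    unfold kr
    positivity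
  have hnorm : ∀ i, ∫ u in Ioi (0:ℝ), ‖F i u‖ = s ^ 2 * (b i * g i ^ 2 / (s ^ 2 + g i ^ 2)) := by
    intro i
    rw [← hval i]
    exact setIntegral_congr_fun measurableSet_Ioi fun u hu => Real.norm_of_nonneg (hnn i u hu)
  have hsum : Summable fun i => s ^ 2 * (b i * g i ^ 2 / (s ^ 2 + g i ^ 2)) := by
    refine Summable.mul_left _ (Summable.of_nonneg_of_le (fun i => ?_) (fun i => ?_) hs)
    · have := hb i
      positivity
    · have := hb i
      rw [div_le_iff₀ (by positivity)]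
      nlinarith [mul_nonneg (hb i) (sq_nonneg s)]
  have key := hasSum_integral_of_summable_integral_norm hint (by simpa only [hnorm] using hsum)
  have e1 : ∀ u : ℝ, ∑' i, F i u = NN b g (s * u) * kr u := by
    intro u
    unfold NN
    rw [← tsum_mul_right]
    refine tsum_congr fun i => ?_
    rw [hF]
    simp only
    by_cases h : g i ≤ s * u
    · rw [if_pos h, indicator_of_mem]
      show g i / s ≤ u
      rw [div_le_iff₀ hs0]
      linarith
    · rw [if_neg h, indicator_of_notMem, zero_mul]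
      intro h2
      apply h
      have h3 : g i / s ≤ u := h2
      rw [div_le_iff₀ hs0] at h3
      linarith
  simp only [hval, e1] at key
  rw [← key.tsum_eq, tsum_mul_left]
  rfl

theorem T3 [Countable ι] (hb : ∀ i, 0 ≤ b i) (hg : ∀ i, 0 < g i) (hs : Summable b) {κ : ℝ}
    (hN : Tendsto (fun T => NN b g T / T) atTop (𝓝 κ)) :
    Tendsto (fun s => s * FZ b g (s ^ 2)) atTop (𝓝 (κ * (Real.pi / 2))) := by
  have hB0 : 0 ≤ ∑' i, b i := tsum_nonneg hb
  obtain ⟨C, hC⟩ : ∃ C : ℝ, ∀ T : ℝ, 0 < T → NN b g T / T ≤ C := by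
    have h1 := hN.eventually (gt_mem_nhds (lt_add_one κ))
    obtain ⟨T0, h2⟩ := eventually_atTop.1 h1
    refine ⟨max (κ + 1) ((∑' i, b i) * T0), fun T hT => ?_⟩
    rcases lt_or_ge T T0 with h3 | h3
    · refine le_trans ?_ (le_max_right _ _)
      have := (NN_le hb hg hs T).2
      rw [div_le_iff₀ hT]
      nlinarith [mul_nonneg hB0 hT.le]
    · exact (le_of_lt (h2 T h3)).trans (le_max_left _ _)
  have h1 : ∀ s : ℝ, 0 < s → ∫ u in Ioi (0:ℝ), NN b g (s * u) / (s * u) * (u * kr u) = s * FZ b g (s ^ 2) := by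
    intro s hs0
    have h2 : ∫ u in Ioi (0:ℝ), NN b g (s * u) / (s * u) * (u * kr u) =
        s⁻¹ * ∫ u in Ioi (0:ℝ), NN b g (s * u) * kr u := by
      rw [← integral_const_mul]
      refine setIntegral_congr_fun measurableSet_Ioi fun u hu => ?_
      have : 0 < u := hu
      show NN b g (s * u) / (s * u) * (u * kr u) = s⁻¹ * (NN b g (s * u) * kr u)
      field_simp
    rw [h2, lapN hb hg hs hs0]
    field_simp
  have h2 : Tendsto (fun s : ℝ => ∫ u in Ioi (0:ℝ), NN b g (s * u) / (s * u) * (u * kr u)) atTop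
      (𝓝 (∫ u in Ioi (0:ℝ), κ * (u * kr u))) := by
    refine tendsto_integral_filter_of_dominated_convergence (fun u => C * (u * kr u)) ?_ ?_
      (krs.1.const_mul C) ?_
    · refine Eventually.of_forall fun s => Measurable.aestronglyMeasurable ?_
      refine (((NN_mono hb hg hs).measurable.comp (measurable_const_mul s)).div (measurable_const_mul s)).mul ?_
      unfold kr
      fun_prop
    · filter_upwards [eventually_gt_atTop (0:ℝ)] with s hs0
      refine (ae_restrict_mem measurableSet_Ioi).mono fun u hu => ?_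
      have hu0 : 0 < u := hu
      have h3 : 0 ≤ u * kr u := by
        unfold kr
        positivity
      have h4 := (NN_le hb hg hs (s * u)).1
      rw [norm_mul, Real.norm_of_nonneg h3, Real.norm_of_nonneg (by positivity)]
      exact mul_le_mul_of_nonneg_right (hC _ (by positivity)) h3
    · refine (ae_restrict_mem measurableSet_Ioi).mono fun u hu => ?_
      have hu0 : 0 < u := hu
      have h3 : Tendsto (fun s : ℝ => s * u) atTop atTop := tendsto_id.atTop_mul_const hu0
      exact (hN.comp h3).mul_const _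
  rw [integral_const_mul, krs.2] at h2
  refine h2.congr' ?_
  filter_upwards [eventually_gt_atTop (0:ℝ)] with s hs0
  exact h1 s hs0

/-- the Tauberian theorem -/
theorem abs_iff [Countable ι] (hb : ∀ i, 0 ≤ b i) (hg : ∀ i, 0 < g i) (hs : Summable b) {κ : ℝ} (hκ : 0 ≤ κ) :
    Tendsto (fun L => GG b g L / L) (𝓝[>] 0) (𝓝 κ) ↔
      Tendsto (fun T => NN b g T / T) atTop (𝓝 (κ / Real.pi)) := by
  have hpi := Real.pi_pos
  have e0 : κ / 2 = κ / Real.pi * (Real.pi / 2) := by field_simp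
  constructor
  · intro hG
    have h1 := toZ (T4 hb hs hG)
    rw [e0] at h1
    have h2 := T2 (adm hb hg hs) (by positivity) h1
    have h3 : Tendsto (fun T : ℝ => T ^ 2) atTop atTop := tendsto_pow_atTop (by norm_num)
    refine (h2.comp h3).congr' ?_
    filter_upwards [eventually_gt_atTop (0:ℝ)] with T hT
    simp only [Function.comp]
    rw [Ph_N hg (by positivity), Real.sqrt_sq hT.le]
  · intro hN
    have h0 := toZ (T3 hb hg hs hN)
    have h1 := T5 (adm hb hg hs) (by positivity) h0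
    have h2 : Tendsto (fun L : ℝ => (1 / L) ^ 2) (𝓝[>] 0) atTop := by
      have h3 : Tendsto (fun L : ℝ => 1 / L) (𝓝[>] 0) atTop := by
        simpa only [one_div] using tendsto_inv_nhdsGT_zero (𝕜 := ℝ)
      exact (tendsto_pow_atTop (by norm_num)).comp h3
    have h3 := h1.comp h2
    have h4 : Tendsto (fun L => GG b g L / L) (𝓝[>] 0) (𝓝 (κ / Real.pi * ∫ u in Ioi (0:ℝ), ph u)) := by
      refine h3.congr' ?_
      filter_upwards [self_mem_nhdsWithin] with L hL
      have hL0 : (0:ℝ) < L := hL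
      simp only [Function.comp]
      rw [Ph_G hg (by positivity), one_div_one_div]
      ring
    have h5 := toZ (T4 hb hs h4)
    have h6 := tendsto_nhds_unique h5 h0
    have h7 : κ / Real.pi * (∫ u in Ioi (0:ℝ), ph u) = κ := by linarith
    rwa [h7] at h4

end Pool.Agent.R613.GC
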