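import Pool.Agent.R613.GC.C1
import Pool.Agent.R613.WM.W8
import Pool.Agent.TH223.AP.A4

set_option autoImplicit false

/-! # The variance over short proportional windows and the second negative moment, asymptotically -/

namespace Pool.Agent.R613.GC

open MeasureTheory Filter Topology Set
open Pool.Agent.W120.WM (ZC NT)
open Pool.Agent.R613.WM (GH GH_ZC mB SM lr lr_pos lr_le exp_lr KV KV_lim KV_top)

/-- the weights -/
noncomputable def bz (ρ : NT) : ℝ := 1 / ‖(ρ : ℂ) * deriv riemannZeta ρ‖ ^ 2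

/-- the ordinates -/
noncomputable def gz (ρ : NT) : ℝ := |(ρ : ℂ).im|

lemma bz_nonneg (ρ : NT) : 0 ≤ bz ρ := by
  unfold bz
  positivity

lemma gz_pos (hZ : ZC) (ρ : NT) : 0 < gz ρ := by
  unfold gz
  rw [abs_pos]
  intro h
  have h1 : (ρ : ℂ) = 1 / 2 := by
    apply Complex.ext
    · rw [(hZ.1 ρ ρ.2).1]
      norm_num
    · rw [h]
      norm_num
  have h2 := ρ.2.1
  rw [h1] at h2
  exact Pool.Agent.TH223.AP.zeta_half_ne h2

lemma rho_ne (hZ : ZC) (ρ : NT) : (ρ : ℂ) ≠ 0 := by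
  intro h
  have h1 := (hZ.1 ρ ρ.2).1
  rw [h] at h1
  norm_num at h1

lemma cnt (hZ : ZC) : Countable NT := by
  have h1 := hZ.2.countable_support
  have h2 : Function.support (fun ρ : NT => 1 / ‖(ρ : ℂ) * deriv riemannZeta ρ‖ ^ 2) = univ := by
    ext ρ
    simp only [Function.mem_support, mem_univ, iff_true]
    have h3 : ‖(ρ : ℂ) * deriv riemannZeta ρ‖ ≠ 0 :=
      norm_ne_zero_iff.2 (mul_ne_zero (rho_ne hZ ρ) (hZ.1 ρ ρ.2).2)
    exact one_div_ne_zero (pow_ne_zero 2 h3)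
  rw [h2] at h1
  exact Set.countable_univ_iff.1 h1

lemma mB_sq {ρ : ℂ} (h : ρ.re = 1 / 2) (L : ℝ) : ‖mB L ρ‖ ^ 2 = (1 - Real.exp (-(L / 2))) ^ 2 +
    Real.exp (-(L / 2)) * (4 * Real.sin (|ρ.im| * L / 2) ^ 2) := by
  have e1 : (-((L : ℂ) * ρ)).re = -(L / 2) := by
    simp [h]
    ring
  have e2 : (-((L : ℂ) * ρ)).im = -(L * ρ.im) := by simp
  have h1 : (mB L ρ).re = 1 - Real.exp (-(L / 2)) * Real.cos (L * ρ.im) := by
    unfold Pool.Agent.R613.WM.mB
    rw [Complex.sub_re, Complex.one_re, Complex.exp_re, e1, e2, Real.cos_neg]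
  have h2 : (mB L ρ).im = Real.exp (-(L / 2)) * Real.sin (L * ρ.im) := by
    unfold Pool.Agent.R613.WM.mB
    rw [Complex.sub_im, Complex.one_im, Complex.exp_im, e1, e2, Real.sin_neg]
    ring
  rw [← Complex.normSq_eq_norm_sq, Complex.normSq_apply, h1, h2]
  have h3 : Real.sin (|ρ.im| * L / 2) ^ 2 = 1 / 2 - Real.cos (L * ρ.im) / 2 := by
    rw [Real.sin_sq_eq_half_sub]
    have h5 : Real.cos (2 * (|ρ.im| * L / 2)) = Real.cos (L * ρ.im) := by
      rcases abs_choice ρ.im with h6 | h6 <;> rw [h6]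
      · congr 1
        ring
      · rw [show 2 * (-ρ.im * L / 2) = -(L * ρ.im) by ring, Real.cos_neg]
    rw [h5]
  have h4 := Real.sin_sq_add_cos_sq (L * ρ.im)
  rw [h3]
  linear_combination (Real.exp (-(L / 2))) ^ 2 * h4

lemma GG_sm (hZ : ZC) (L : ℝ) : Summable fun ρ : NT => bz ρ * (4 * Real.sin (gz ρ * L / 2) ^ 2) := by
  refine Summable.of_nonneg_of_le (fun ρ => ?_) (fun ρ => ?_) (hZ.2.mul_left 4)
  · have := bz_nonneg ρ
    positivity
  · have h1 := Real.sin_sq_le_one (gz ρ * L / 2)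
    have h2 := bz_nonneg ρ
    have h3 : bz ρ = 1 / ‖(ρ : ℂ) * deriv riemannZeta ρ‖ ^ 2 := rfl
    rw [← h3]
    nlinarith

lemma SM_eq (hZ : ZC) (L : ℝ) : SM (mB L) = (1 - Real.exp (-(L / 2))) ^ 2 * (∑' ρ : NT, bz ρ) +
    Real.exp (-(L / 2)) * GG bz gz L := by
  have hb : Summable bz := hZ.2
  unfold Pool.Agent.R613.WM.SM GG
  rw [← tsum_mul_left, ← tsum_mul_left, ← (hb.mul_left _).tsum_add ((GG_sm hZ L).mul_left _)]
  refine tsum_congr fun ρ => ?_
  rw [mB_sq (hZ.1 ρ ρ.2).1]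
  unfold bz gz
  ring

lemma aux_lim : Tendsto (fun L : ℝ => (1 - Real.exp (-(L / 2))) ^ 2 / L) (𝓝[>] 0) (𝓝 0) := by
  have h1 : Tendsto (fun L : ℝ => L / 4) (𝓝[>] 0) (𝓝 0) := by
    have : Tendsto (fun L : ℝ => L / 4) (𝓝 0) (𝓝 (0 / 4)) := tendsto_id.div_const 4
    rw [zero_div] at this
    exact this.mono_left nhdsWithin_le_nhds
  refine squeeze_zero' ?_ ?_ h1
  · filter_upwards [self_mem_nhdsWithin] with L hL
    have : (0:ℝ) < L := hL
    positivity
  · filter_upwards [self_mem_nhdsWithin] with L hL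
    have hL0 : (0:ℝ) < L := hL
    have h2 := Real.add_one_le_exp (-(L / 2))
    have h3 : Real.exp (-(L / 2)) ≤ 1 := Real.exp_le_one_iff.2 (by linarith)
    rw [div_le_iff₀ hL0]
    nlinarith

lemma exp_lim : Tendsto (fun L : ℝ => Real.exp (-(L / 2))) (𝓝[>] 0) (𝓝 1) := by
  have h : Continuous fun L : ℝ => Real.exp (-(L / 2)) := by fun_prop
  have h1 := h.tendsto 0
  rw [zero_div, neg_zero, Real.exp_zero] at h1
  exact h1.mono_left nhdsWithin_le_nhds

lemma SM_GG (hZ : ZC) (κ : ℝ) : Tendsto (fun L => SM (mB L) / L) (𝓝[>] 0) (𝓝 κ) ↔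
    Tendsto (fun L => GG bz gz L / L) (𝓝[>] 0) (𝓝 κ) := by
  constructor
  · intro h
    have h1 := (h.sub (aux_lim.mul_const (∑' ρ : NT, bz ρ))).div exp_lim one_ne_zero
    rw [zero_mul, sub_zero, div_one] at h1
    refine h1.congr' ?_
    filter_upwards [self_mem_nhdsWithin] with L hL
    have hL0 : (0:ℝ) < L := hL
    have he := Real.exp_pos (-(L / 2))
    simp only [Pi.div_apply]
    rw [SM_eq hZ]
    field_simp
    ring
  · intro h
    have h1 := (aux_lim.mul_const (∑' ρ : NT, bz ρ)).add (exp_lim.mul h)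
    rw [zero_mul, zero_add, one_mul] at h1
    refine h1.congr' ?_
    filter_upwards [self_mem_nhdsWithin] with L hL
    have hL0 : (0:ℝ) < L := hL
    rw [SM_eq hZ]
    field_simp

/-- the limit value -/
noncomputable def vv (δ : ℝ) : ℝ := (1 + δ / 2) / δ * SM (mB (lr δ))

lemma lr_lim : Tendsto lr (𝓝[>] 0) (𝓝[>] 0) := by
  rw [tendsto_nhdsWithin_iff]
  constructor
  · have h1 : Tendsto (fun δ : ℝ => 2 * δ) (𝓝[>] 0) (𝓝 0) := by
      have : Tendsto (fun δ : ℝ => 2 * δ) (𝓝 0) (𝓝 (2 * 0)) := tendsto_id.const_mul 2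
      rw [mul_zero] at this
      exact this.mono_left nhdsWithin_le_nhds
    refine squeeze_zero' ?_ ?_ h1
    · filter_upwards [ev_small 1 one_pos] with δ hδ
      exact (lr_pos hδ.1 hδ.2.le).le
    · filter_upwards [ev_small 1 one_pos] with δ hδ
      exact lr_le hδ.1 hδ.2.le
  · filter_upwards [ev_small 1 one_pos] with δ hδ
    exact lr_pos hδ.1 hδ.2.le

lemma w_lim : Tendsto (fun δ : ℝ => (1 + δ / 2) * lr δ / δ) (𝓝[>] 0) (𝓝 1) := by
  have h1 : Tendsto (fun δ : ℝ => (1 + δ / 2) / (1 - δ / 2)) (𝓝[>] 0) (𝓝 1) := by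
    have h2 : ContinuousAt (fun δ : ℝ => (1 + δ / 2) / (1 - δ / 2)) 0 := by
      apply ContinuousAt.div (by fun_prop) (by fun_prop)
      norm_num
    have h3 : Tendsto (fun δ : ℝ => (1 + δ / 2) / (1 - δ / 2)) (𝓝 0) (𝓝 ((1 + 0 / 2) / (1 - 0 / 2))) := h2
    rw [show ((1:ℝ) + 0 / 2) / (1 - 0 / 2) = 1 by norm_num] at h3
    exact h3.mono_left nhdsWithin_le_nhds
  refine tendsto_of_tendsto_of_tendsto_of_le_of_le' tendsto_const_nhds h1 ?_ ?_
  · filter_upwards [ev_small 1 one_pos] with δ hδ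
    have h0 : 0 < 1 - δ / 2 := by linarith [hδ.2]
    have h2 : 0 < 1 + δ / 2 := by linarith [hδ.1]
    have h3 : δ / (1 + δ / 2) ≤ lr δ := by
      unfold Pool.Agent.R613.WM.lr
      have h4 := Real.one_sub_inv_le_log_of_pos (show 0 < (1 + δ / 2) / (1 - δ / 2) by positivity)
      rw [inv_div] at h4
      have h5 : δ / (1 + δ / 2) = 1 - (1 - δ / 2) / (1 + δ / 2) := by
        rw [one_sub_div h2.ne']
        congr 1
        ring
      rw [h5]
      exact h4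
    rw [div_le_iff₀ h2] at h3
    rw [le_div_iff₀ hδ.1]
    linarith
  · filter_upwards [ev_small 1 one_pos] with δ hδ
    have h0 : 0 < 1 - δ / 2 := by linarith [hδ.2]
    have h2 : 0 < 1 + δ / 2 := by linarith [hδ.1]
    have h3 : lr δ ≤ δ / (1 - δ / 2) := by
      unfold Pool.Agent.R613.WM.lr
      have h4 := Real.log_le_sub_one_of_pos (show 0 < (1 + δ / 2) / (1 - δ / 2) by positivity)
      have h5 : δ / (1 - δ / 2) = (1 + δ / 2) / (1 - δ / 2) - 1 := by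
        rw [div_sub_one h0.ne']
        congr 1
        ring
      rw [h5]
      exact h4
    rw [div_le_iff₀ hδ.1]
    calc (1 + δ / 2) * lr δ ≤ (1 + δ / 2) * (δ / (1 - δ / 2)) := by gcongr
      _ = (1 + δ / 2) / (1 - δ / 2) * δ := by ring

lemma vv_SM (κ : ℝ) : Tendsto vv (𝓝[>] 0) (𝓝 κ) ↔ Tendsto (fun L => SM (mB L) / L) (𝓝[>] 0) (𝓝 κ) := by
  have hv : ∀ δ : ℝ, 0 < δ → δ ≤ 1 → vv δ = (1 + δ / 2) * lr δ / δ * (SM (mB (lr δ)) / lr δ) := by
    intro δ h1 h2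
    have h3 := lr_pos h1 h2
    unfold vv
    field_simp
  constructor
  · intro h
    have h1 := h.div w_lim one_ne_zero
    rw [div_one] at h1
    -- the inverse function
    have h2 : Tendsto (fun L : ℝ => 2 * (1 - Real.exp (-L)) / (1 + Real.exp (-L))) (𝓝[>] 0) (𝓝[>] 0) := by
      rw [tendsto_nhdsWithin_iff]
      constructor
      · have h3 : Continuous fun L : ℝ => 2 * (1 - Real.exp (-L)) / (1 + Real.exp (-L)) :=
          Continuous.div (by fun_prop) (by fun_prop) fun L => by positivity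
        have h4 := h3.tendsto 0
        simp only [neg_zero, Real.exp_zero, sub_self, mul_zero, zero_div] at h4
        exact h4.mono_left nhdsWithin_le_nhds
      · filter_upwards [self_mem_nhdsWithin] with L hL
        have hL0 : (0:ℝ) < L := hL
        have h3 : Real.exp (-L) < 1 := by
          rw [Real.exp_lt_one_iff]
          linarith
        have h4 : 0 < 1 - Real.exp (-L) := by linarith
        show 0 < 2 * (1 - Real.exp (-L)) / (1 + Real.exp (-L))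
        positivity
    refine (h1.comp h2).congr' ?_
    filter_upwards [ev_small (1 / 2) (by norm_num)] with L hL
    obtain ⟨t, ht⟩ : ∃ t : ℝ, t = Real.exp (-L) := ⟨_, rfl⟩
    have ht0 : 0 < t := by
      rw [ht]
      exact Real.exp_pos _
    have ht1 : t < 1 := by
      rw [ht, Real.exp_lt_one_iff]
      linarith [hL.1]
    have htL : 1 - t ≤ L := by
      have := Real.add_one_le_exp (-L)
      rw [← ht] at this
      linarith
    obtain ⟨δ, hδ⟩ : ∃ δ : ℝ, δ = 2 * (1 - t) / (1 + t) := ⟨_, rfl⟩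
    have hδ0 : 0 < δ := by
      rw [hδ]
      have : 0 < 1 - t := by linarith
      positivity
    have hδL : δ ≤ 2 * L := by
      rw [hδ, div_le_iff₀ (by linarith)]
      nlinarith [hL.1]
    have hlr : lr δ = L := by
      unfold Pool.Agent.R613.WM.lr
      have h1 : (1 + δ / 2) / (1 - δ / 2) = 1 / t := by
        rw [hδ]
        have h2 : 1 + 2 * (1 - t) / (1 + t) / 2 = 2 / (1 + t) := by
          field_simp
          ring
        have h3 : 1 - 2 * (1 - t) / (1 + t) / 2 = 2 * t / (1 + t) := by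
          field_simp
          ring
        rw [h2, h3]
        field_simp
      rw [h1, one_div, Real.log_inv, ht, Real.log_exp, neg_neg]
    simp only [Function.comp, Pi.div_apply]
    rw [← ht, ← hδ, hv δ hδ0 (by linarith [hL.2]), hlr]
    have hL0 := hL.1
    have h5 : 0 < 1 + δ / 2 := by linarith
    field_simp
  · intro h
    have h1 := w_lim.mul (h.comp lr_lim)
    rw [one_mul] at h1
    refine h1.congr' ?_
    filter_upwards [ev_small 1 one_pos] with δ hδ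
    exact (hv δ hδ.1 hδ.2.le).symm

/-- the sum over the zeros up to height `T` -/
noncomputable def NZ (T : ℝ) : ℝ := ∑' ρ : NT, if |(ρ : ℂ).im| ≤ T then 1 / ‖deriv riemannZeta ρ‖ ^ 2 else 0

lemma NZ_eq (hZ : ZC) (T : ℝ) : ∃ E : ℝ, NZ T = NN bz gz T + E ∧ 0 ≤ E ∧ E ≤ 1 / 4 * ∑' ρ : NT, bz ρ := by
  have hb : Summable bz := hZ.2
  have h0 : ∀ ρ : NT, 0 ≤ (if gz ρ ≤ T then 1 / 4 * bz ρ else 0) ∧
      (if gz ρ ≤ T then 1 / 4 * bz ρ else 0) ≤ 1 / 4 * bz ρ := by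
    intro ρ
    have := bz_nonneg ρ
    split_ifs
    · exact ⟨by positivity, le_rfl⟩
    · exact ⟨le_rfl, by positivity⟩
  have hs : Summable fun ρ : NT => if gz ρ ≤ T then 1 / 4 * bz ρ else 0 :=
    Summable.of_nonneg_of_le (fun ρ => (h0 ρ).1) (fun ρ => (h0 ρ).2) (hb.mul_left _)
  refine ⟨∑' ρ : NT, if gz ρ ≤ T then 1 / 4 * bz ρ else 0, ?_, tsum_nonneg fun ρ => (h0 ρ).1, ?_⟩
  · unfold NZ NN
    rw [← (NN_sm bz_nonneg (gz_pos hZ) hb T).tsum_add hs]
    refine tsum_congr fun ρ => ?_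
    have h1 : gz ρ = |(ρ : ℂ).im| := rfl
    by_cases h2 : |(ρ : ℂ).im| ≤ T
    · rw [h1, if_pos h2, if_pos h2, if_pos h2]
      have h3 : ‖(ρ : ℂ)‖ ^ 2 = 1 / 4 + (ρ : ℂ).im ^ 2 := by
        rw [← Complex.normSq_eq_norm_sq, Complex.normSq_apply, (hZ.1 ρ ρ.2).1]
        ring
      have h4 : 0 < ‖(ρ : ℂ)‖ := norm_pos_iff.2 (rho_ne hZ ρ)
      have h5 : 0 < ‖deriv riemannZeta ρ‖ := norm_pos_iff.2 (hZ.1 ρ ρ.2).2
      have h6 : bz ρ * |(ρ : ℂ).im| ^ 2 + 1 / 4 * bz ρ = bz ρ * ‖(ρ : ℂ)‖ ^ 2 := by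
        rw [h3, sq_abs]
        ring
      rw [h6]
      unfold bz
      rw [norm_mul, mul_pow]
      field_simp
    · rw [h1, if_neg h2, if_neg h2, if_neg h2, add_zero]
  · rw [← tsum_mul_left]
    exact Summable.tsum_le_tsum (fun ρ => (h0 ρ).2) hs (hb.mul_left _)

lemma NZ_lim (hZ : ZC) (c : ℝ) : Tendsto (fun T => NZ T / T) atTop (𝓝 c) ↔
    Tendsto (fun T => NN bz gz T / T) atTop (𝓝 c) := by
  choose E hE using NZ_eq hZ
  have h1 : Tendsto (fun T => E T / T) atTop (𝓝 0) := by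
    have h2 : Tendsto (fun T : ℝ => (1 / 4 * ∑' ρ : NT, bz ρ) / T) atTop (𝓝 0) :=
      tendsto_const_nhds.div_atTop tendsto_id
    refine squeeze_zero' ?_ ?_ h2
    · filter_upwards [eventually_gt_atTop (0:ℝ)] with T hT
      exact div_nonneg (hE T).2.1 hT.le
    · filter_upwards [eventually_gt_atTop (0:ℝ)] with T hT
      exact div_le_div_of_nonneg_right (hE T).2.2 hT.le
  constructor
  · intro h
    have h2 := h.sub h1
    rw [sub_zero] at h2
    refine h2.congr fun T => ?_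
    rw [(hE T).1]
    ring
  · intro h
    have h2 := h.add h1
    rw [add_zero] at h2
    refine h2.congr fun T => ?_
    rw [(hE T).1]
    ring

lemma GH_of {c : ℝ} (hc : 0 < c) (hRH : ∀ ρ ∈ NT, ρ.re = 1 / 2 ∧ deriv riemannZeta ρ ≠ 0)
    (hN : Tendsto (fun T => NZ T / T) atTop (𝓝 c)) : GH := by
  classical
  obtain ⟨T0, hT0⟩ := eventually_atTop.1 ((hN.eventually (lt_mem_nhds hc)).and
    (hN.eventually (gt_mem_nhds (lt_add_one c))))
  have hb : ∀ T : ℝ, T0 ≤ T → 1 ≤ T → ∀ Z : Finset ℂ, (∀ ρ ∈ Z, ρ ∈ NT ∧ |ρ.im| ≤ T) →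
      ∑ ρ ∈ Z, 1 / ‖deriv riemannZeta ρ‖ ^ 2 ≤ (c + 1) * T := by
    intro T hT hT1 Z hZ
    have hsum : Summable (fun ρ : NT => if |(ρ : ℂ).im| ≤ T then 1 / ‖deriv riemannZeta ρ‖ ^ 2 else 0) := by
      by_contra hn
      have h1 := (hT0 T hT).1
      unfold NZ at h1
      rw [tsum_eq_zero_of_not_summable hn, zero_div] at h1
      exact lt_irrefl _ h1
    have h2 := (hT0 T hT).2
    rw [div_lt_iff₀ (by linarith)] at h2
    refine le_trans ?_ h2.le
    unfold NZ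
    have h3 : ∑ ρ ∈ Z, 1 / ‖deriv riemannZeta ρ‖ ^ 2 = ∑ ρ ∈ Z.subtype (· ∈ NT),
        (if |(ρ : ℂ).im| ≤ T then 1 / ‖deriv riemannZeta ρ‖ ^ 2 else 0) := by
      rw [← Finset.sum_subtype_of_mem (fun ρ : ℂ => 1 / ‖deriv riemannZeta ρ‖ ^ 2)
        (p := (· ∈ NT)) (fun x hx => (hZ x hx).1)]
      refine Finset.sum_congr rfl fun ρ hρ => ?_
      rw [if_pos (hZ ρ (Finset.mem_subtype.1 hρ)).2]
    rw [h3]
    refine Summable.sum_le_tsum _ (fun ρ _ => ?_) hsum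
    split_ifs <;> positivity
  refine ⟨hRH, (c + 1) * max T0 1, by positivity, fun T hT Z hZ => ?_⟩
  have hm1 : (1:ℝ) ≤ max T0 1 := le_max_right _ _
  rcases le_or_gt (max T0 1) T with h1 | h1
  · refine (hb T ((le_max_left _ _).trans h1) hT Z hZ).trans ?_
    gcongr
    nlinarith
  · refine (hb (max T0 1) (le_max_left _ _) hm1 Z fun ρ hρ => ⟨(hZ ρ hρ).1, (hZ ρ hρ).2.trans h1.le⟩).trans ?_
    have : 0 ≤ (c + 1) * max T0 1 := by positivity
    nlinarith

theorem main_lim {κ : ℝ} (hκ : 0 < κ) :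
    (∃ v : ℝ → ℝ, (∀ δ : ℝ, 0 < δ → δ ≤ 1 → Tendsto (fun Y : ℝ => KV δ Y / Real.log Y) atTop (𝓝 (v δ))) ∧
      Tendsto v (𝓝[>] 0) (𝓝 κ)) ↔
    ((∀ ρ ∈ NT, ρ.re = 1 / 2 ∧ deriv riemannZeta ρ ≠ 0) ∧
      Tendsto (fun T => NZ T / T) atTop (𝓝 (κ / Real.pi))) := by
  have hpi := Real.pi_pos
  constructor
  · rintro ⟨v, hv, hlim⟩
    have hZ : ZC := by
      by_contra hZ
      exact not_tendsto_nhds_of_tendsto_atTop (KV_top one_pos le_rfl hZ) _ (hv 1 one_pos le_rfl)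
    have := cnt hZ
    refine ⟨hZ.1, ?_⟩
    rw [NZ_lim hZ, ← abs_iff bz_nonneg (gz_pos hZ) hZ.2 hκ.le, ← SM_GG hZ, ← vv_SM]
    refine hlim.congr' ?_
    filter_upwards [ev_small 1 one_pos] with δ hδ
    exact tendsto_nhds_unique (hv δ hδ.1 hδ.2.le) (KV_lim hδ.1 hδ.2.le hZ)
  · rintro ⟨hRH, hN⟩
    have hZ : ZC := GH_ZC (GH_of (by positivity) hRH hN)
    have := cnt hZ
    refine ⟨vv, fun δ h1 h2 => KV_lim h1 h2 hZ, ?_⟩
    rw [vv_SM, SM_GG hZ, abs_iff bz_nonneg (gz_pos hZ) hZ.2 hκ.le, ← NZ_lim hZ]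
    exact hN

end Pool.Agent.R613.GC
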