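import Pool.Agent.R613.WM.W8
import Pool.Agent.TH223.AP.A4

set_option autoImplicit false

/-! # Almost periodicity of shifted combinations -/

namespace Pool.Agent.R613.GE

open MeasureTheory Filter Topology Set
open Pool.Agent.TH223.AP

lemma trig_meas (K : Finset ℝ) (a : ℝ → ℂ) : Continuous (trig K a) := trig_cont K a

lemma LB_shift {f : ℝ → ℝ} (hf : LB f) (h0 : ∀ u : ℝ, u < 0 → f u = 0) (L : ℝ) (hL : 0 < L) :
    LB (fun v => f (v - L)) := by
  refine ⟨hf.meas.comp (measurable_id.sub_const L), fun V => ?_⟩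
  obtain ⟨B, hB⟩ := hf.bdd V
  refine ⟨|B| + |f 0|, fun v hv => ?_⟩
  rcases lt_trichotomy (v - L) 0 with h | h | h
  · rw [h0 _ h, abs_zero]
    positivity
  · rw [h]
    linarith [abs_nonneg B]
  · have := hB (v - L) ⟨h, by linarith [hv.2]⟩
    linarith [le_abs_self B, abs_nonneg (f 0)]

lemma B20_shift {f : ℝ → ℝ} (h : B20 f) (hf : LB f) (h0 : ∀ u : ℝ, u < 0 → f u = 0) {L : ℝ} (hL : 0 < L) :
    B20 (fun v => f (v - L)) := by
  intro ε hε
  obtain ⟨K, a, hK, h1⟩ := h (ε / 2) (by positivity)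
  refine ⟨K, fun l => a l * Complex.exp (-(Complex.I * l * L)), hK, ?_⟩
  obtain ⟨F, hF⟩ : ∃ F : ℝ → ℝ, F = fun u => ‖((f u : ℝ) : ℂ) - trig K a u‖ ^ 2 := ⟨_, rfl⟩
  have hFL : LB F := by
    rw [hF]
    exact hf.normsq (trig_cont K a)
  have htr : ∀ v : ℝ, trig K (fun l => a l * Complex.exp (-(Complex.I * l * L))) v = trig K a (v - L) := by
    intro v
    unfold trig
    refine Finset.sum_congr rfl fun l _ => ?_
    rw [mul_assoc, ← Complex.exp_add]
    congr 2
    push_cast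
    ring
  have hi0 : IntervalIntegrable F volume (-L) 0 := by
    rw [intervalIntegrable_iff_integrableOn_Ioc_of_le (by linarith)]
    refine Integrable.mono' (g := fun _ => (|f 0| + ∑ l ∈ K, ‖a l‖) ^ 2) (integrableOn_const (by simp))
      hFL.meas.aestronglyMeasurable ?_
    refine (ae_restrict_mem measurableSet_Ioc).mono fun u hu => ?_
    rw [hF]
    simp only
    rw [Real.norm_of_nonneg (by positivity)]
    have h2 : ‖((f u : ℝ) : ℂ) - trig K a u‖ ≤ |f 0| + ∑ l ∈ K, ‖a l‖ := by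
      refine (norm_sub_le _ _).trans (add_le_add ?_ (trig_bound K a u))
      rw [Complex.norm_real, Real.norm_eq_abs]
      rcases hu.2.lt_or_eq with h3 | h3
      · rw [h0 _ h3, abs_zero]
        positivity
      · rw [h3]
    gcongr
  have h2 : ∀ V : ℝ, L ≤ V → mn (fun v => ‖((f (v - L) : ℝ) : ℂ) -
      trig K (fun l => a l * Complex.exp (-(Complex.I * l * L))) v‖ ^ 2) V =
      ((∫ u in (-L)..0, F u) + ∫ u in (0:ℝ)..(V - L), F u) / V := by
    intro V hV
    unfold mn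
    congr 1
    rw [intervalIntegral.integral_add_adjacent_intervals hi0 (hFL.ii (by linarith))]
    have h3 := intervalIntegral.integral_comp_sub_right (a := 0) (b := V) F L
    rw [zero_sub] at h3
    rw [← h3]
    apply intervalIntegral.integral_congr
    intro v _
    simp only
    rw [htr, hF]
  have h3 : Tendsto (fun V : ℝ => V - L) atTop atTop := tendsto_atTop_add_const_right _ _ tendsto_id
  have h4 := h3.eventually h1
  have h5 : Tendsto (fun V : ℝ => (∫ u in (-L)..0, F u) / V) atTop (𝓝 0) :=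
    tendsto_const_nhds.div_atTop tendsto_id
  filter_upwards [h4, h5.eventually (gt_mem_nhds (half_pos hε)), eventually_gt_atTop L,
    eventually_gt_atTop (0:ℝ)] with V e1 e2 e3 e4
  rw [h2 V e3.le, add_div]
  have e5 : (∫ u in (0:ℝ)..(V - L), F u) ≤ ε / 2 * (V - L) := by
    have e6 : mn F (V - L) ≤ ε / 2 := by
      rw [hF]
      exact e1
    unfold mn at e6
    rwa [div_le_iff₀ (by linarith)] at e6
  have e7 : (∫ u in (0:ℝ)..(V - L), F u) / V ≤ ε / 2 := by
    rw [div_le_iff₀ e4]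
    nlinarith
  linarith

lemma B20_comb {f g : ℝ → ℝ} (hf : B20 f) (hg : B20 g) (lf : LB f) (lg : LB g) (c d : ℝ) :
    B20 (fun v => c * f v + d * g v) := by
  classical
  intro ε hε
  obtain ⟨K1, a1, hK1, h1⟩ := hf (ε / (4 * (c ^ 2 + 1))) (by positivity)
  obtain ⟨K2, a2, hK2, h2⟩ := hg (ε / (4 * (d ^ 2 + 1))) (by positivity)
  refine ⟨K1 ∪ K2, fun l => c * (if l ∈ K1 then a1 l else 0) + d * (if l ∈ K2 then a2 l else 0), by simp [hK1, hK2], ?_⟩
  have htr : ∀ v : ℝ, trig (K1 ∪ K2) (fun l => c * (if l ∈ K1 then a1 l else 0) + d * (if l ∈ K2 then a2 l else 0)) v =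
      c * trig K1 a1 v + d * trig K2 a2 v := by
    intro v
    unfold trig
    have e1 : ∑ l ∈ K1, a1 l * Complex.exp (Complex.I * l * v) =
        ∑ l ∈ K1 ∪ K2, (if l ∈ K1 then a1 l else 0) * Complex.exp (Complex.I * l * v) := by
      rw [← Finset.sum_subset (Finset.subset_union_left : K1 ⊆ K1 ∪ K2)]
      · exact Finset.sum_congr rfl fun l hl => by rw [if_pos hl]
      · intro l _ hl
        rw [if_neg hl, zero_mul]
    have e2 : ∑ l ∈ K2, a2 l * Complex.exp (Complex.I * l * v) =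
        ∑ l ∈ K1 ∪ K2, (if l ∈ K2 then a2 l else 0) * Complex.exp (Complex.I * l * v) := by
      rw [← Finset.sum_subset (Finset.subset_union_right : K2 ⊆ K1 ∪ K2)]
      · exact Finset.sum_congr rfl fun l hl => by rw [if_pos hl]
      · intro l _ hl
        rw [if_neg hl, zero_mul]
    rw [e1, e2, Finset.mul_sum, Finset.mul_sum, ← Finset.sum_add_distrib]
    exact Finset.sum_congr rfl fun l _ => by ring
  have n1 := lf.normsq (trig_cont K1 a1)
  have n2 := lg.normsq (trig_cont K2 a2)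
  have n3 : LB (fun v => ‖((c * f v + d * g v : ℝ) : ℂ) -
      trig (K1 ∪ K2) (fun l => c * (if l ∈ K1 then a1 l else 0) + d * (if l ∈ K2 then a2 l else 0)) v‖ ^ 2) :=
    ((lf.const_mul c).add (lg.const_mul d)).normsq (trig_cont _ _)
  filter_upwards [h1, h2, eventually_gt_atTop (0:ℝ)] with V e1 e2 hV
  have e3 : mn (fun v => ‖((c * f v + d * g v : ℝ) : ℂ) -
      trig (K1 ∪ K2) (fun l => c * (if l ∈ K1 then a1 l else 0) + d * (if l ∈ K2 then a2 l else 0)) v‖ ^ 2) V ≤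
      mn (fun v => 2 * c ^ 2 * ‖((f v : ℝ) : ℂ) - trig K1 a1 v‖ ^ 2 +
        2 * d ^ 2 * ‖((g v : ℝ) : ℂ) - trig K2 a2 v‖ ^ 2) V := by
    apply mn_mono hV (n3.ii hV.le) (((n1.const_mul _).add (n2.const_mul _)).ii hV.le)
    intro v _
    rw [htr]
    obtain ⟨z, hz⟩ : ∃ z : ℂ, z = ((f v : ℝ) : ℂ) - trig K1 a1 v := ⟨_, rfl⟩
    obtain ⟨w, hw⟩ : ∃ w : ℂ, w = ((g v : ℝ) : ℂ) - trig K2 a2 v := ⟨_, rfl⟩
    have e4 : ((c * f v + d * g v : ℝ) : ℂ) - (c * trig K1 a1 v + d * trig K2 a2 v) = c * z + d * w := by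
      rw [hz, hw]
      push_cast
      ring
    rw [e4, ← hz, ← hw]
    have e5 : ‖(c : ℂ) * z + d * w‖ ≤ |c| * ‖z‖ + |d| * ‖w‖ := by
      refine (norm_add_le _ _).trans ?_
      rw [norm_mul, norm_mul, Complex.norm_real, Complex.norm_real]
      rfl
    have e6 : ‖(c : ℂ) * z + d * w‖ ^ 2 ≤ (|c| * ‖z‖ + |d| * ‖w‖) ^ 2 := by gcongr
    have e7 : (|c| * ‖z‖) ^ 2 = c ^ 2 * ‖z‖ ^ 2 := by rw [mul_pow, sq_abs]
    have e8 : (|d| * ‖w‖) ^ 2 = d ^ 2 * ‖w‖ ^ 2 := by rw [mul_pow, sq_abs]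
    nlinarith [sq_nonneg (|c| * ‖z‖ - |d| * ‖w‖)]
  refine e3.trans ?_
  rw [mn_add ((n1.const_mul _).ii hV.le) ((n2.const_mul _).ii hV.le), mn_const_mul, mn_const_mul]
  have e4 : 2 * c ^ 2 * mn (fun v => ‖((f v : ℝ) : ℂ) - trig K1 a1 v‖ ^ 2) V ≤
      2 * c ^ 2 * (ε / (4 * (c ^ 2 + 1))) := by gcongr
  have e5 : 2 * d ^ 2 * mn (fun v => ‖((g v : ℝ) : ℂ) - trig K2 a2 v‖ ^ 2) V ≤
      2 * d ^ 2 * (ε / (4 * (d ^ 2 + 1))) := by gcongr
  have e6 : 2 * c ^ 2 * (ε / (4 * (c ^ 2 + 1))) ≤ ε / 2 := by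
    rw [← mul_div_assoc, div_le_div_iff₀ (by positivity) (by positivity)]
    nlinarith
  have e7 : 2 * d ^ 2 * (ε / (4 * (d ^ 2 + 1))) ≤ ε / 2 := by
    rw [← mul_div_assoc, div_le_div_iff₀ (by positivity) (by positivity)]
    nlinarith
  linarith

lemma ft_zero (u : ℝ) (hu : u < 0) : ft u = 0 := by
  unfold ft
  have h1 : ⌊Real.exp u⌋₊ = 0 := by
    rw [Nat.floor_eq_zero]
    exact Real.exp_lt_one_iff.2 hu
  rw [h1]
  simp

/-- the mean along a forward shift -/
lemma mn_shift {g : ℝ → ℝ} (hg : LB g) {a : ℝ} (ha : 0 < a) {l : ℝ} (h : Tendsto (mn g) atTop (𝓝 l)) :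
    Tendsto (mn fun v => g (v + a)) atTop (𝓝 l) := by
  have h1 : Tendsto (fun V : ℝ => V + a) atTop atTop := tendsto_atTop_add_const_right _ _ tendsto_id
  have h2 := h.comp h1
  have h3 : Tendsto (fun V : ℝ => (V + a) / V) atTop (𝓝 1) := by
    have h4 : Tendsto (fun V : ℝ => 1 + a / V) atTop (𝓝 (1 + 0)) :=
      (tendsto_const_nhds.div_atTop tendsto_id).const_add 1
    rw [add_zero] at h4
    refine h4.congr' ?_
    filter_upwards [eventually_gt_atTop (0:ℝ)] with V hV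
    field_simp
  have h5 : Tendsto (fun V : ℝ => (∫ u in (0:ℝ)..a, g u) / V) atTop (𝓝 0) :=
    tendsto_const_nhds.div_atTop tendsto_id
  have h6 := (h3.mul h2).sub h5
  rw [one_mul, sub_zero] at h6
  refine h6.congr' ?_
  filter_upwards [eventually_gt_atTop (0:ℝ)] with V hV
  simp only [Function.comp]
  unfold mn
  have h7 := intervalIntegral.integral_comp_add_right (a := 0) (b := V) g a
  rw [zero_add] at h7
  rw [h7]
  have h8 : (∫ u in (0:ℝ)..(V + a), g u) = (∫ u in (0:ℝ)..a, g u) + ∫ u in a..(V + a), g u := by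
    rw [intervalIntegral.integral_add_adjacent_intervals (hg.ii ha.le)]
    exact (hg.ii (by linarith : 0 ≤ V + a)).mono_set (by
      rw [uIcc_of_le (by linarith), uIcc_of_le (by linarith)]
      exact Icc_subset_Icc_left ha.le)
  rw [h8]
  have hVa : V + a ≠ 0 := by positivity
  field_simp
  ring

end Pool.Agent.R613.GE
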