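import Pool.Agent.R613.GC.E1

set_option autoImplicit false

/-! # The limit law of the normalised Möbius sums over proportional windows -/

namespace Pool.Agent.R613.GE

open MeasureTheory Filter Topology Set
open Pool.Agent.TH223.AP
open Pool.Agent.R613.WM (Wn Wn_eq lr lr_pos exp_lr KV KV_lim KV_top SM mB)
open Pool.Agent.W120.WM (ZC NT)
open Pool.Agent.R305.FM (subst_exp)

/-- the normalised sum -/
noncomputable def Zw (δ x : ℝ) : ℝ := Wn δ x / Real.sqrt (δ * x / (Real.pi ^ 2 / 6))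

/-- the almost periodic function -/
noncomputable def gg (δ u : ℝ) : ℝ :=
  (1 / Real.sqrt (δ / (Real.pi ^ 2 / 6)) * Real.exp (Real.log (1 + δ / 2) / 2)) * ft u +
  (-(1 / Real.sqrt (δ / (Real.pi ^ 2 / 6)) * Real.exp ((Real.log (1 + δ / 2) - lr δ) / 2))) * ft (u - lr δ)

lemma gg_LB {δ : ℝ} (hδ : 0 < δ) (hδ1 : δ ≤ 1) : LB (gg δ) :=
  (ft_LB.const_mul _).add ((LB_shift ft_LB ft_zero _ (lr_pos hδ hδ1)).const_mul _)

lemma gg_B20 {δ : ℝ} (hδ : 0 < δ) (hδ1 : δ ≤ 1) (hZ : ZC) : B20 (gg δ) :=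
  B20_comb (ft_B20 hZ) (B20_shift (ft_B20 hZ) ft_LB ft_zero (lr_pos hδ hδ1)) ft_LB
    (LB_shift ft_LB ft_zero _ (lr_pos hδ hδ1)) _ _

lemma Z_eq {δ : ℝ} (hδ : 0 < δ) (hδ1 : δ ≤ 1) {v : ℝ} (hv : 0 ≤ v)
    (hc : ∀ n : ℕ, (1 + δ / 2) * Real.exp v ≠ n) :
    Zw δ (Real.exp v) = gg δ (v + Real.log (1 + δ / 2)) := by
  have h1 : (0:ℝ) < 1 + δ / 2 := by linarith
  have h2 : (0:ℝ) < 1 - δ / 2 := by linarith
  obtain ⟨a, ha⟩ : ∃ a : ℝ, a = Real.log (1 + δ / 2) := ⟨_, rfl⟩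
  have ea : Real.exp a = 1 + δ / 2 := by rw [ha, Real.exp_log h1]
  have eL := exp_lr hδ hδ1
  have e1 : Real.exp (v + a) = (1 + δ / 2) * Real.exp v := by
    rw [Real.exp_add, ea]
    ring
  have e2 : Real.exp (v + a - lr δ) = (1 - δ / 2) * Real.exp v := by
    have : v + a - lr δ = v + a + -lr δ := by ring
    rw [this, Real.exp_add, e1, eL]
    field_simp
  have f1 : ft (v + a) = H353.FB.Mx ((1 + δ / 2) * Real.exp v) * Real.exp (-((v + a) / 2)) := by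
    rw [← e1]
    rfl
  have f2 : ft (v + a - lr δ) =
      H353.FB.Mx ((1 - δ / 2) * Real.exp v) * Real.exp (-((v + a - lr δ) / 2)) := by
    rw [← e2]
    rfl
  unfold Zw gg
  rw [← ha, f1, f2, Wn_eq hδ hδ1 (Real.one_le_exp hv) hc]
  have e3 : Real.sqrt (δ * Real.exp v / (Real.pi ^ 2 / 6)) =
      Real.sqrt (δ / (Real.pi ^ 2 / 6)) * Real.exp (v / 2) := by
    rw [Real.exp_half, ← Real.sqrt_mul (by positivity)]
    congr 1
    ring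
  have e4 : Real.exp (a / 2) * Real.exp (-((v + a) / 2)) = (Real.exp (v / 2))⁻¹ := by
    rw [← Real.exp_add, ← Real.exp_neg]
    congr 1
    ring
  have e5 : Real.exp ((a - lr δ) / 2) * Real.exp (-((v + a - lr δ) / 2)) = (Real.exp (v / 2))⁻¹ := by
    rw [← Real.exp_add, ← Real.exp_neg]
    congr 1
    ring
  rw [e3]
  obtain ⟨s, hs⟩ : ∃ s : ℝ, s = Real.sqrt (δ / (Real.pi ^ 2 / 6)) := ⟨_, rfl⟩
  obtain ⟨A, hA⟩ : ∃ A : ℝ, A = H353.FB.Mx ((1 + δ / 2) * Real.exp v) := ⟨_, rfl⟩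
  obtain ⟨B, hB⟩ : ∃ B : ℝ, B = H353.FB.Mx ((1 - δ / 2) * Real.exp v) := ⟨_, rfl⟩
  rw [← hs, ← hA, ← hB]
  have e6 : 1 / s * Real.exp (a / 2) * (A * Real.exp (-((v + a) / 2))) +
      -(1 / s * Real.exp ((a - lr δ) / 2)) * (B * Real.exp (-((v + a - lr δ) / 2))) =
      1 / s * A * (Real.exp (a / 2) * Real.exp (-((v + a) / 2))) -
      1 / s * B * (Real.exp ((a - lr δ) / 2) * Real.exp (-((v + a - lr δ) / 2))) := by ring
  rw [e6, e4, e5, div_eq_mul_inv, mul_inv]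
  ring

lemma int_eq {δ : ℝ} (hδ : 0 < δ) (hδ1 : δ ≤ 1) (φ : ℝ → ℝ) {Y : ℝ} (hY : 1 ≤ Y) :
    (∫ x in (1:ℝ)..Y, φ (Zw δ x) / x) / Real.log Y =
      mn (fun v => (fun u => φ (gg δ u)) (v + Real.log (1 + δ / 2))) (Real.log Y) := by
  unfold mn
  congr 1
  rw [subst_exp (fun x => φ (Zw δ x) / x) hY, intervalIntegral.integral_of_le (Real.log_nonneg hY),
    intervalIntegral.integral_of_le (Real.log_nonneg hY)]
  apply setIntegral_congr_ae measurableSet_Ioc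
  have hnull : ∀ᵐ v : ℝ, v ∉ (Set.range fun n : ℕ => Real.log ((n : ℝ) / (1 + δ / 2))) :=
    (Set.countable_range _).ae_notMem _
  filter_upwards [hnull] with v hv hvm
  have hv0 : 0 ≤ v := hvm.1.le
  have hne : ∀ n : ℕ, (1 + δ / 2) * Real.exp v ≠ n := by
    intro n hn
    apply hv
    refine ⟨n, ?_⟩
    have h1 : (0:ℝ) < 1 + δ / 2 := by linarith
    simp only
    rw [← hn, mul_div_cancel_left₀ _ h1.ne', Real.log_exp]
  rw [Z_eq hδ hδ1 hv0 hne]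
  have := Real.exp_pos v
  field_simp

/-- the law -/
def IsL (δ : ℝ) (ν : ProbabilityMeasure ℝ) : Prop := ∀ φ : ℝ → ℝ, Continuous φ →
  (∃ C : ℝ, ∀ t, |φ t| ≤ C * (1 + t ^ 2)) → Integrable φ (ν : Measure ℝ) ∧
    Tendsto (fun Y : ℝ => (∫ x in (1:ℝ)..Y, φ (Zw δ x) / x) / Real.log Y) atTop (𝓝 (∫ t, φ t ∂(ν : Measure ℝ)))

lemma transfer {δ : ℝ} (hδ : 0 < δ) (hδ1 : δ ≤ 1) {φ : ℝ → ℝ} (hφ : Continuous φ) {l : ℝ}
    (h : Tendsto (mn fun u => φ (gg δ u)) atTop (𝓝 l)) :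
    Tendsto (fun Y : ℝ => (∫ x in (1:ℝ)..Y, φ (Zw δ x) / x) / Real.log Y) atTop (𝓝 l) := by
  have ha : 0 < Real.log (1 + δ / 2) := Real.log_pos (by linarith)
  have h1 := (mn_shift ((gg_LB hδ hδ1).comp hφ) ha h).comp Real.tendsto_log_atTop
  refine h1.congr' ?_
  filter_upwards [eventually_ge_atTop (1:ℝ)] with Y hY
  rw [int_eq hδ hδ1 φ hY]
  rfl

lemma exists_L {δ : ℝ} (hδ : 0 < δ) (hδ1 : δ ≤ 1) (hZ : ZC) : ∃ ν : ProbabilityMeasure ℝ, IsL δ ν := by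
  have hB := gg_B20 hδ hδ1 hZ
  obtain ⟨μ, hμ⟩ := exists_law hB.b2 (gg_LB hδ hδ1)
  refine ⟨μ, fun φ hφ ⟨C, hC⟩ => ?_⟩
  obtain ⟨h1, h2⟩ := limit_quad hB.b2 hμ hφ hC
  exact ⟨h1, transfer hδ hδ1 hφ h2⟩

lemma sq_KV {δ : ℝ} (hδ : 0 < δ) {Y : ℝ} (hY : 1 ≤ Y) :
    ∫ x in (1:ℝ)..Y, Zw δ x ^ 2 / x = Real.pi ^ 2 / 6 * KV δ Y := by
  unfold Pool.Agent.R613.WM.KV
  rw [← intervalIntegral.integral_const_mul]
  apply intervalIntegral.integral_congr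
  intro x hx
  rw [uIcc_of_le hY] at hx
  have hx0 : 0 < x := by linarith [hx.1]
  have hpi := Real.pi_pos
  simp only
  unfold Zw
  rw [div_pow, Real.sq_sqrt (by positivity)]
  field_simp

lemma L_sq {δ : ℝ} (hδ : 0 < δ) {ν : ProbabilityMeasure ℝ} (hν : IsL δ ν) :
    Tendsto (fun Y : ℝ => Real.pi ^ 2 / 6 * (KV δ Y / Real.log Y)) atTop (𝓝 (∫ t, t ^ 2 ∂(ν : Measure ℝ))) := by
  have h2 := (hν (fun t => t ^ 2) (by fun_prop) ⟨1, fun t => by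
    rw [one_mul, abs_of_nonneg (sq_nonneg t)]
    linarith⟩).2
  refine h2.congr' ?_
  filter_upwards [eventually_ge_atTop (1:ℝ)] with Y hY
  rw [sq_KV hδ hY]
  ring

theorem law_main {δ : ℝ} (hδ : 0 < δ) (hδ1 : δ ≤ 1) :
    (WM ↔ ∃ ν : ProbabilityMeasure ℝ, IsL δ ν) ∧
    ∀ ν : ProbabilityMeasure ℝ, IsL δ ν → ∫ t, t ∂(ν : Measure ℝ) = 0 ∧
      ∫ t, t ^ 2 ∂(ν : Measure ℝ) = Real.pi ^ 2 / 6 * ((1 + δ / 2) / δ * SM (mB (lr δ))) := by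
  have key : ∀ ν : ProbabilityMeasure ℝ, IsL δ ν → ZC := by
    intro ν hν
    by_contra hZ
    have h1 := (KV_top hδ hδ1 hZ).const_mul_atTop (show (0:ℝ) < Real.pi ^ 2 / 6 by positivity)
    exact not_tendsto_nhds_of_tendsto_atTop h1 _ (L_sq hδ hν)
  refine ⟨⟨fun h => exists_L hδ hδ1 (WM_iff_ZC.1 h), fun ⟨ν, hν⟩ => WM_iff_ZC.2 (key ν hν)⟩, fun ν hν => ?_⟩
  have hZ := key ν hν
  constructor
  · have h1 := (hν (fun t => t) continuous_id ⟨1, fun t => by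
      rw [one_mul]
      rcases le_total |t| 1 with h | h
      · nlinarith [sq_nonneg t]
      · rw [← sq_abs t]
        nlinarith⟩).2
    have h2 := transfer hδ hδ1 (φ := fun t => t) continuous_id ((gg_B20 hδ hδ1 hZ).mean_zero (gg_LB hδ hδ1))
    exact tendsto_nhds_unique h1 h2
  · exact tendsto_nhds_unique (L_sq hδ hν) ((KV_lim hδ hδ1 hZ).const_mul _)

end Pool.Agent.R613.GE
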